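import Pool.Agent.Sc85.Rep

/-!
Minimal generation, for `B = Prop`.
-/

namespace Pool.Agent.Sc85

open Pool.Agent.Helper71.Nik

namespace Rep

variable {A : VBA Prop} {𝔸 : Type} [BooleanAlgebra 𝔸] (ρ : Rep A 𝔸)

include ρ

lemma vSub_of (𝒯 : Set 𝔸) : A.vSub fun a => ρ.e a ∈ 𝒯 := by
  simp only [VBA.vSub, iInf_Prop_eq, inf_Prop_eq, himp_iff_imp]
  rintro a b ⟨h1, h2⟩
  rwa [← (ρ.eq_iff a b).1 h2]

lemma vSub_iff (T : A.S → Prop) : A.vSub T ↔ ∃ 𝒯 : Set 𝔸, ∀ a, T a ↔ ρ.e a ∈ 𝒯 := by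
  constructor
  · intro h
    simp only [VBA.vSub, iInf_Prop_eq, inf_Prop_eq, himp_iff_imp] at h
    refine ⟨ρ.e '' {a | T a}, fun a => ⟨fun ha => ⟨a, ha, rfl⟩, ?_⟩⟩
    rintro ⟨b, hb, hab⟩
    exact h b a ⟨hb, (ρ.eq_iff b a).2 hab⟩
  · rintro ⟨𝒯, h⟩
    have : T = fun a => ρ.e a ∈ 𝒯 := funext fun a => propext (h a)
    rw [this]
    exact ρ.vSub_of 𝒯

lemma vSubalg_iff (T : A.S → Prop) :
    A.vSubalg T ↔ ∃ 𝒯 : BooleanSubalgebra 𝔸, ∀ a, T a ↔ ρ.e a ∈ 𝒯 := by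
  simp only [VBA.vSubalg, iInf_Prop_eq, inf_Prop_eq, himp_iff_imp]
  constructor
  · rintro ⟨⟨⟨h1, h2⟩, h3⟩, h4⟩
    obtain ⟨𝒯, h𝒯⟩ := (ρ.vSub_iff T).1 h1
    have hc : ∀ x, x ∈ 𝒯 → xᶜ ∈ 𝒯 := by
      intro x hx
      obtain ⟨a, rfl⟩ := ρ.surj x
      rw [← ρ.map_compl, ← h𝒯]
      exact h4 a ((h𝒯 a).2 hx)
    have hs : ∀ x y, x ∈ 𝒯 → y ∈ 𝒯 → x ⊔ y ∈ 𝒯 := by
      intro x y hx hy
      obtain ⟨a, rfl⟩ := ρ.surj x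
      obtain ⟨b, rfl⟩ := ρ.surj y
      rw [← ρ.map_sup, ← h𝒯]
      exact h3 a b ⟨(h𝒯 a).2 hx, (h𝒯 b).2 hy⟩
    have hi : ∀ x y, x ∈ 𝒯 → y ∈ 𝒯 → x ⊓ y ∈ 𝒯 := by
      intro x y hx hy
      have := hc _ (hs _ _ (hc x hx) (hc y hy))
      rwa [compl_sup, compl_compl, compl_compl] at this
    have hb : (⊥ : 𝔸) ∈ 𝒯 := by
      rw [← ρ.map_bot, ← h𝒯]
      exact h2
    exact ⟨{ carrier := 𝒯
             supClosed' := fun x hx y hy => hs x y hx hy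
             infClosed' := fun x hx y hy => hi x y hx hy
             compl_mem' := fun {x} hx => hc x hx
             bot_mem' := hb }, h𝒯⟩
  · rintro ⟨𝒯, h𝒯⟩
    refine ⟨⟨⟨(ρ.vSub_iff T).2 ⟨𝒯, h𝒯⟩, ?_⟩, ?_⟩, ?_⟩
    · rw [h𝒯, ρ.map_bot]
      exact BooleanSubalgebra.bot_mem
    · rintro a b ⟨ha, hb⟩
      rw [h𝒯] at ha hb ⊢
      rw [ρ.map_sup]
      exact BooleanSubalgebra.sup_mem ha hb
    · intro a ha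
      rw [h𝒯] at ha ⊢
      rw [ρ.map_compl]
      exact BooleanSubalgebra.compl_mem ha

variable {T U : A.S → Prop} {𝒯 𝒰 : BooleanSubalgebra 𝔸}

lemma vLE_iff (hT : ∀ a, T a ↔ ρ.e a ∈ 𝒯) (hU : ∀ a, U a ↔ ρ.e a ∈ 𝒰) : A.vLE T U ↔ 𝒯 ≤ 𝒰 := by
  simp only [VBA.vLE, iInf_Prop_eq, himp_iff_imp]
  constructor
  · intro h x hx
    obtain ⟨a, rfl⟩ := ρ.surj x
    exact (hU a).1 (h a ((hT a).2 hx))
  · intro h a ha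
    exact (hU a).2 (h ((hT a).1 ha))

lemma vMinExt_iff (hT : ∀ a, T a ↔ ρ.e a ∈ 𝒯) (hU : ∀ a, U a ↔ ρ.e a ∈ 𝒰) :
    A.vMinExt T U ↔ 𝒯 ⋖ 𝒰 := by
  simp only [VBA.vMinExt, iInf_Prop_eq, inf_Prop_eq, sup_Prop_eq, himp_iff_imp, compl_iff_not]
  rw [ρ.vLE_iff hT hU, ρ.vLE_iff hU hT]
  constructor
  · rintro ⟨⟨h1, h2⟩, h3⟩
    refine ⟨lt_iff_le_not_ge.2 ⟨h1, h2⟩, fun 𝒟 hl hr => ?_⟩
    have hD : ∀ a, (fun a => ρ.e a ∈ 𝒟) a ↔ ρ.e a ∈ 𝒟 := fun a => Iff.rfl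
    rcases h3 _ ⟨⟨(ρ.vSubalg_iff _).2 ⟨𝒟, hD⟩, (ρ.vLE_iff hT hD).2 hl.le⟩,
      (ρ.vLE_iff hD hU).2 hr.le⟩ with h | h
    · exact absurd ((ρ.vLE_iff hD hT).1 h) (not_le_of_gt hl)
    · exact absurd ((ρ.vLE_iff hU hD).1 h) (not_le_of_gt hr)
  · intro h
    refine ⟨⟨h.lt.le, not_le_of_gt h.lt⟩, ?_⟩
    rintro D ⟨⟨h1, h2⟩, h3⟩
    obtain ⟨𝒟, hD⟩ := (ρ.vSubalg_iff D).1 h1
    rcases h.eq_or_eq ((ρ.vLE_iff hT hD).1 h2) ((ρ.vLE_iff hD hU).1 h3) with h4 | h4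
    · left
      rw [ρ.vLE_iff hD hT, h4]
    · right
      rw [ρ.vLE_iff hU hD, h4]

lemma vMG_iff : A.vMG ↔ MinimallyGenerated 𝔸 := by
  simp only [VBA.vMG, VBA.vChain, iInf_Prop_eq, iSup_Prop_eq, inf_Prop_eq, sup_Prop_eq,
    himp_iff_imp]
  constructor
  · rintro ⟨δ, C, ⟨⟨⟨⟨h1, h2⟩, h3⟩, h4⟩, h5⟩, h6⟩
    have hδ : 0 < δ := by
      obtain ⟨α, hα, -⟩ := h6 A.bot
      exact lt_of_le_of_lt zero_le hα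
    have hex : ∀ α, ∃ 𝒯 : BooleanSubalgebra 𝔸, α < δ → ∀ a, C α a ↔ ρ.e a ∈ 𝒯 := by
      intro α
      by_cases hα : α < δ
      · obtain ⟨𝒯, h⟩ := (ρ.vSubalg_iff (C α)).1 (h1 α hα)
        exact ⟨𝒯, fun _ => h⟩
      · exact ⟨⊥, fun h => absurd h hα⟩
    choose 𝒜 h𝒜 using hex
    have hmono : ∀ α β, α ≤ β → β < δ → 𝒜 α ≤ 𝒜 β := fun α β hαβ hβ =>
      (ρ.vLE_iff (h𝒜 α (lt_of_le_of_lt hαβ hβ)) (h𝒜 β hβ)).1 (h3 α β hαβ hβ)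
    refine ⟨δ, 𝒜, hδ, ?_, hmono, ?_, ?_, ?_⟩
    · apply le_antisymm
      · intro x hx
        obtain ⟨a, rfl⟩ := ρ.surj x
        rw [BooleanSubalgebra.mem_bot]
        rcases h2 a ((h𝒜 0 hδ a).2 hx) with h | h
        · left
          rw [(ρ.eq_iff _ _).1 h, ρ.map_bot]
        · right
          rw [(ρ.eq_iff _ _).1 h, ρ.map_top]
      · intro x hx
        rw [BooleanSubalgebra.mem_bot] at hx
        rcases hx with rfl | rfl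
        · exact BooleanSubalgebra.bot_mem
        · exact BooleanSubalgebra.top_mem
    · intro l hl hlim x
      obtain ⟨a, rfl⟩ := ρ.surj x
      constructor
      · intro hx
        obtain ⟨α, hα, ha⟩ := h4 l hl hlim a ((h𝒜 l hl a).2 hx)
        exact ⟨α, hα, (h𝒜 α (hα.trans hl) a).1 ha⟩
      · rintro ⟨α, hα, ha⟩
        exact hmono α l hα.le hl ha
    · intro α hα
      have h0 : α < δ := lt_of_le_of_lt (le_self_add) hα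
      exact (ρ.vMinExt_iff (h𝒜 α h0) (h𝒜 (α + 1) hα)).1 (h5 α hα)
    · intro x
      obtain ⟨a, rfl⟩ := ρ.surj x
      obtain ⟨α, hα, ha⟩ := h6 a
      exact ⟨α, hα, (h𝒜 α hα a).1 ha⟩
  · rintro ⟨δ, 𝒜, hδ, h0, hmono, hlim, hsuc, hex⟩
    have hC : ∀ α a, (fun a => ρ.e a ∈ 𝒜 α) a ↔ ρ.e a ∈ 𝒜 α := fun α a => Iff.rfl
    refine ⟨δ, fun α a => ρ.e a ∈ 𝒜 α, ⟨⟨⟨⟨?_, ?_⟩, ?_⟩, ?_⟩, ?_⟩, ?_⟩
    · intro α _
      exact (ρ.vSubalg_iff _).2 ⟨𝒜 α, hC α⟩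
    · intro a ha
      have ha' : ρ.e a ∈ 𝒜 0 := ha
      rw [h0, BooleanSubalgebra.mem_bot] at ha'
      rcases ha' with h | h
      · left
        rw [ρ.eq_iff, h, ρ.map_bot]
      · right
        rw [ρ.eq_iff, h, ρ.map_top]
    · intro α β hαβ hβ
      exact (ρ.vLE_iff (hC α) (hC β)).2 (hmono α β hαβ hβ)
    · intro l hl hlim' a ha
      obtain ⟨α, hα, h⟩ := (hlim l hl hlim' _).1 ha
      exact ⟨α, hα, h⟩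
    · intro α hα
      exact (ρ.vMinExt_iff (hC α) (hC (α + 1))).2 (hsuc α hα)
    · intro a
      obtain ⟨α, hα, h⟩ := hex (ρ.e a)
      exact ⟨α, hα, h⟩

end Rep

end Pool.Agent.Sc85
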