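import Mathlib

/-!
MP_a0ad85: the statement that some infinite minimally generated Boolean algebra has the Nikodym
property but not the strong Nikodym property, in the Boolean extension by a complete Boolean
algebra `B`.

Objects of the extension are given by names, and the truth values of formulas are computed with
infima and suprema.  A Boolean algebra of the extension is a type `S` of names of elements with
the Boolean-valued equality `eq` and operations on names which respect it.  A subset is a map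
from `S` to `B`, a real number is a cut, a map from `ℚ` to `B`; maps and sets have to respect
Boolean-valued equality.  The ordinals of the extension are the ordinals.  For `B = Prop` all this
is the usual meaning.
-/

namespace Pool.Agent.Sc85

variable {B : Type*} [CompleteBooleanAlgebra B]

/-! ### Real numbers -/

/-- Truth value of `x = y` for subsets of the rational numbers. -/
def vEq (x y : ℚ → B) : B := ⨅ q, (x q ⇨ y q) ⊓ (y q ⇨ x q)

/-- Truth value of: `x` is a real number, that is `{q | q < x}`, a nonempty proper set of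
rational numbers which contains `q` if and only if it contains a number greater than `q`. -/
def vReal (x : ℚ → B) : B :=
  (⨆ q, x q) ⊓ (⨆ q, (x q)ᶜ) ⊓ ⨅ q, (x q ⇨ ⨆ r, ⨆ _ : q < r, x r) ⊓ ((⨆ r, ⨆ _ : q < r, x r) ⇨ x q)

/-- The sum of two real numbers. -/
def vPlus (x y : ℚ → B) : ℚ → B := fun q => ⨆ r : ℚ, x r ⊓ y (q - r)

/-- Truth value of `r < |x|`, that is `r < x` or `x < -r`. -/
def vLtAbs (r : ℚ) (x : ℚ → B) : B := x r ⊔ ⨆ s, ⨆ _ : s < -r, (x s)ᶜ

/-- Truth value of: the sum of the absolute values of the real numbers `x i` is at most `C`. -/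
def vSumLE {m : ℕ} (x : Fin m → ℚ → B) (C : ℕ) : B :=
  ⨅ r : Fin m → ℚ, (⨅ i, vLtAbs (r i) (x i)) ⇨ ⨆ _ : ∑ i, r i ≤ (C : ℚ), ⊤

/-! ### Boolean algebras -/

/-- A Boolean algebra of the extension: names of elements, equality, operations. -/
structure VBA (B : Type*) [CompleteBooleanAlgebra B] where
  /-- names of elements -/
  S : Type
  /-- truth value of equality -/
  eq : S → S → B
  /-- join -/
  sup : S → S → S
  /-- meet -/
  inf : S → S → S
  /-- complement -/
  compl : S → S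
  /-- least element -/
  bot : S
  /-- greatest element -/
  top : S
  eq_refl : ∀ a, eq a a = ⊤
  eq_symm : ∀ a b, eq a b ≤ eq b a
  eq_trans : ∀ a b c, eq a b ⊓ eq b c ≤ eq a c
  sup_congr : ∀ a a' b b', eq a a' ⊓ eq b b' ≤ eq (sup a b) (sup a' b')
  inf_congr : ∀ a a' b b', eq a a' ⊓ eq b b' ≤ eq (inf a b) (inf a' b')
  compl_congr : ∀ a a', eq a a' ≤ eq (compl a) (compl a')
  sup_comm : ∀ a b, eq (sup a b) (sup b a) = ⊤
  inf_comm : ∀ a b, eq (inf a b) (inf b a) = ⊤
  sup_assoc : ∀ a b c, eq (sup (sup a b) c) (sup a (sup b c)) = ⊤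
  inf_assoc : ∀ a b c, eq (inf (inf a b) c) (inf a (inf b c)) = ⊤
  sup_inf_self : ∀ a b, eq (sup a (inf a b)) a = ⊤
  inf_sup_self : ∀ a b, eq (inf a (sup a b)) a = ⊤
  inf_sup_left : ∀ a b c, eq (inf a (sup b c)) (sup (inf a b) (inf a c)) = ⊤
  sup_compl : ∀ a, eq (sup a (compl a)) top = ⊤
  inf_compl : ∀ a, eq (inf a (compl a)) bot = ⊤

namespace VBA

variable (A : VBA B)

/-- Truth value of: `T` is a subset of the algebra. -/
def vSub (T : A.S → B) : B := ⨅ a, ⨅ b, T a ⊓ A.eq a b ⇨ T b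

/-- Truth value of: every element of `T` is in `U`. -/
def vLE (T U : A.S → B) : B := ⨅ a, T a ⇨ U a

/-- Truth value of: the algebra is infinite. -/
def vInfinite : B :=
  ⨅ m : ℕ, ⨆ p : Fin m → A.S, ⨅ i, ⨅ j, ⨅ _ : i ≠ j, (A.eq (p i) (p j))ᶜ

/-! #### Measures -/

/-- Truth value of: `a` and `b` are disjoint. -/
def vDisj (a b : A.S) : B := A.eq (A.inf a b) A.bot

/-- The join of a finite sequence. -/
def join {m : ℕ} (p : Fin m → A.S) : A.S := (List.ofFn p).foldr A.sup A.bot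

/-- Truth value of: `p` is a finite partition of the unit (it may contain the zero element). -/
def vPart {m : ℕ} (p : Fin m → A.S) : B :=
  (⨅ i, ⨅ j, ⨅ _ : i ≠ j, A.vDisj (p i) (p j)) ⊓ A.eq (A.join p) A.top

/-- Truth value of: the norm of `μ` is at most `C`. -/
def vNormLE (μ : A.S → ℚ → B) (C : ℕ) : B :=
  ⨅ m : ℕ, ⨅ p : Fin m → A.S, A.vPart p ⇨ vSumLE (fun i => μ (p i)) C

/-- Truth value of: `μ` is a map from the algebra to the real numbers. -/
def vFn (μ : A.S → ℚ → B) : B :=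
  (⨅ a, vReal (μ a)) ⊓ ⨅ a, ⨅ b, A.eq a b ⇨ vEq (μ a) (μ b)

/-- Truth value of: `μ` is finitely additive. -/
def vAdd (μ : A.S → ℚ → B) : B :=
  ⨅ a, ⨅ b, A.vDisj a b ⇨ vEq (μ (A.sup a b)) (vPlus (μ a) (μ b))

/-- Truth value of: `μ` is a measure, a finitely additive real function of bounded variation. -/
def vMeas (μ : A.S → ℚ → B) : B := A.vFn μ ⊓ A.vAdd μ ⊓ ⨆ C : ℕ, A.vNormLE μ C

/-- Truth value of: the sequence `μ` is bounded at every element of `T`. -/
def vPtBdd (T : A.S → B) (μ : ℕ → A.S → ℚ → B) : B :=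
  ⨅ a, T a ⇨ ⨆ C : ℕ, ⨅ n, vSumLE (fun _ : Fin 1 => μ n a) C

/-- Truth value of: the sequence `μ` is bounded in norm. -/
def vBdd (μ : ℕ → A.S → ℚ → B) : B := ⨆ C : ℕ, ⨅ n, A.vNormLE (μ n) C

/-- Truth value of: every sequence of measures which is pointwise bounded on `T` is bounded in
norm. -/
def vNikOn (T : A.S → B) : B :=
  ⨅ μ : ℕ → A.S → ℚ → B, (⨅ n, A.vMeas (μ n)) ⊓ A.vPtBdd T μ ⇨ A.vBdd μ

/-- Truth value of the Nikodym property. -/
def vNik : B := A.vNikOn fun _ => ⊤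

/-- Truth value of: `T` is an increasing sequence of subsets of the algebra with union the
algebra. -/
def vExh (T : ℕ → A.S → B) : B :=
  (⨅ n, A.vSub (T n)) ⊓ (⨅ n, A.vLE (T n) (T (n + 1))) ⊓ ⨅ a, ⨆ n, T n a

/-- Truth value of the strong Nikodym property. -/
def vStrong : B := ⨅ T : ℕ → A.S → B, A.vExh T ⇨ ⨆ n, A.vNikOn (T n)

/-! #### Minimal generation -/

/-- Truth value of: `T` is a subalgebra. -/
def vSubalg (T : A.S → B) : B :=
  A.vSub T ⊓ T A.bot ⊓ (⨅ a, ⨅ b, T a ⊓ T b ⇨ T (A.sup a b)) ⊓ ⨅ a, T a ⇨ T (A.compl a)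

/-- Truth value of: `U` is a minimal extension of `T`. -/
def vMinExt (T U : A.S → B) : B :=
  A.vLE T U ⊓ (A.vLE U T)ᶜ ⊓
    ⨅ D : A.S → B, A.vSubalg D ⊓ A.vLE T D ⊓ A.vLE D U ⇨ A.vLE D T ⊔ A.vLE U D

/-- Truth value of: the `C α`, `α < δ`, are a chain as in the definition of minimal generation. -/
def vChain (δ : Ordinal.{0}) (C : Ordinal.{0} → A.S → B) : B :=
  (⨅ α, ⨅ _ : α < δ, A.vSubalg (C α)) ⊓
  (⨅ a, C 0 a ⇨ A.eq a A.bot ⊔ A.eq a A.top) ⊓
  (⨅ α, ⨅ β, ⨅ _ : α ≤ β, ⨅ _ : β < δ, A.vLE (C α) (C β)) ⊓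
  (⨅ l, ⨅ _ : l < δ, ⨅ _ : Order.IsSuccLimit l, ⨅ a, C l a ⇨ ⨆ α, ⨆ _ : α < l, C α a) ⊓
  (⨅ α, ⨅ _ : α + 1 < δ, A.vMinExt (C α) (C (α + 1))) ⊓
  ⨅ a, ⨆ α, ⨆ _ : α < δ, C α a

/-- Truth value of: the algebra is minimally generated. -/
def vMG : B := ⨆ δ : Ordinal.{0}, ⨆ C : Ordinal.{0} → A.S → B, A.vChain δ C

end VBA

/-- In the extension by `B` there is an infinite minimally generated Boolean algebra with the
Nikodym property and without the strong Nikodym property. -/
def Holds (B : Type*) [CompleteBooleanAlgebra B] : Prop :=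
  ∃ A : VBA B, A.vInfinite ⊓ A.vMG ⊓ A.vNik ⊓ A.vStrongᶜ = ⊤

end Pool.Agent.Sc85
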