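import Pool.Agent.Sc85.Defs
import Pool.Agent.SigF.Val

/-!
The formulas evaluated at almost every function `G`.
-/

namespace Pool.Agent.Sc85

open Set Filter Pool.Agent.SigF
open Pool.Agent.Fo65 (RO)

variable {R : Type}

/-- For almost all `G` the truth value `b` contains `G` if and only if `p G`. -/
def Ev (b : RO (Br R)) (p : Br R → Prop) : Prop := ∀ᶠ G in Gn R, (In G b ↔ p G)

/-- Types with at most `ω₁` elements. -/
class Sml (ι : Sort*) : Prop where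
  out : IsEmpty ι ∨ ∃ e : Om → ι, Function.Surjective e

instance (ι : Type*) [Countable ι] : Sml ι := by
  rcases isEmpty_or_nonempty ι with h | h
  · exact ⟨Or.inl h⟩
  · exact ⟨Or.inr (Om.exists_surj ι)⟩

instance : Sml Om := ⟨Or.inr ⟨id, Function.surjective_id⟩⟩

lemma Sml.of_surj {ι κ : Sort*} [h : Sml ι] (f : ι → κ) (hf : Function.Surjective f) : Sml κ := by
  rcases h.out with h | ⟨e, he⟩
  · exact ⟨Or.inl ⟨fun k => by obtain ⟨i, _⟩ := hf k; exact h.false i⟩⟩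
  · exact ⟨Or.inr ⟨f ∘ e, hf.comp he⟩⟩

instance Sml.prod (ι κ : Type*) [h : Sml ι] [k : Sml κ] : Sml (ι × κ) := by
  rcases h.out with h | ⟨e, he⟩
  · exact ⟨Or.inl ⟨fun x => h.false x.1⟩⟩
  rcases k.out with k | ⟨f, hf⟩
  · exact ⟨Or.inl ⟨fun x => k.false x.2⟩⟩
  obtain ⟨g⟩ := Om.exists_pairing
  refine ⟨Or.inr ⟨fun i => (e (g i).1, f (g i).2), ?_⟩⟩
  rintro ⟨x, y⟩
  obtain ⟨i, rfl⟩ := he x
  obtain ⟨j, rfl⟩ := hf y
  exact ⟨g.symm (i, j), by simp⟩

instance Sml.pi (ι : Type*) [Sml ι] (m : ℕ) : Sml (Fin m → ι) := by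
  induction m with
  | zero => infer_instance
  | succ m ih =>
    exact Sml.of_surj (ι := ι × (Fin m → ι)) (fun x => Fin.cons x.1 x.2) fun f =>
      ⟨(f 0, Fin.tail f), Fin.cons_self_tail f⟩

lemma ev_all_Sml {ι : Sort*} [h : Sml ι] {p : ι → Br R → Prop} (hp : ∀ i, ∀ᶠ G in Gn R, p i G) :
    ∀ᶠ G in Gn R, ∀ i, p i G := by
  rcases h.out with h | ⟨e, he⟩
  · exact Filter.Eventually.of_forall fun G i => (h.false i).elim
  · exact ev_all_of_surj e he hp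

namespace Ev

lemma of (b : RO (Br R)) : Ev b fun G => In G b := Filter.Eventually.of_forall fun _ => Iff.rfl

lemma top : Ev (⊤ : RO (Br R)) fun _ => ⊤ :=
  Filter.Eventually.of_forall fun G => ⟨fun _ => trivial, fun _ => in_top G⟩

variable {a b : RO (Br R)} {p q : Br R → Prop}

lemma val' (hp : IsOpen {G | p G}) : Ev (val p hp) p := ev_val p hp

lemma inf (ha : Ev a p) (hb : Ev b q) : Ev (a ⊓ b) fun G => p G ⊓ q G := by
  filter_upwards [ha, hb] with G h1 h2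
  rw [in_inf, h1, h2]
  rfl

lemma sup (ha : Ev a p) (hb : Ev b q) : Ev (a ⊔ b) fun G => p G ⊔ q G := by
  filter_upwards [ha, hb, ev_sup a b] with G h1 h2 h3
  rw [h3, h1, h2]
  rfl

lemma himp (ha : Ev a p) (hb : Ev b q) : Ev (a ⇨ b) fun G => p G ⇨ q G := by
  filter_upwards [ha, hb, ev_himp a b] with G h1 h2 h3
  rw [h3, h1, h2]
  rfl

lemma compl (ha : Ev a p) : Ev aᶜ fun G => (p G)ᶜ := by
  filter_upwards [ha, ev_compl a] with G h1 h2
  rw [h2, h1]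
  rfl

lemma iInf {ι : Sort*} [h : Sml ι] {f : ι → RO (Br R)} {P : ι → Br R → Prop}
    (hf : ∀ i, Ev (f i) (P i)) : Ev (⨅ i, f i) fun G => ⨅ i, P i G := by
  rcases h.out with h | ⟨e, he⟩
  · refine Filter.Eventually.of_forall fun G => ?_
    have e1 : (⨅ i, f i) = ⊤ := iInf_of_empty _
    have e2 : (⨅ i, P i G) = ⊤ := iInf_of_empty _
    show In G (⨅ i, f i) ↔ ⨅ i, P i G
    rw [e1, e2]
    exact ⟨fun _ => trivial, fun _ => in_top G⟩
  · filter_upwards [ev_iInf_of_surj e he f, ev_all_of_surj e he hf] with G h1 h2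
    rw [h1, iInf_Prop_eq]
    exact forall_congr' h2

lemma iSup {ι : Sort*} [h : Sml ι] {f : ι → RO (Br R)} {P : ι → Br R → Prop}
    (hf : ∀ i, Ev (f i) (P i)) : Ev (⨆ i, f i) fun G => ⨆ i, P i G := by
  filter_upwards [ev_iSup f, ev_all_Sml hf] with G h1 h2
  rw [h1, iSup_Prop_eq]
  exact exists_congr h2

/-- infimum with a condition of the ground model -/
lemma iInf_prop {c : Prop} {f : c → RO (Br R)} {P : c → Br R → Prop}
    (h : ∀ i, Ev (f i) (P i)) : Ev (⨅ i, f i) fun G => ⨅ i, P i G := by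
  by_cases hc : c
  · have e1 : (⨅ i, f i) = f hc := iInf_pos hc
    filter_upwards [h hc] with G hG
    have e2 : (⨅ i, P i G) = P hc G := iInf_pos hc
    rw [e1, e2, hG]
  · refine Filter.Eventually.of_forall fun G => ?_
    have e1 : (⨅ i, f i) = ⊤ := iInf_neg hc
    have e2 : (⨅ i, P i G) = ⊤ := iInf_neg hc
    show In G (⨅ i, f i) ↔ ⨅ i, P i G
    rw [e1, e2]
    exact ⟨fun _ => trivial, fun _ => in_top G⟩

lemma iSup_prop {c : Prop} {f : c → RO (Br R)} {P : c → Br R → Prop}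
    (h : ∀ i, Ev (f i) (P i)) : Ev (⨆ i, f i) fun G => ⨆ i, P i G := by
  by_cases hc : c
  · have e1 : (⨆ i, f i) = f hc := iSup_pos hc
    filter_upwards [h hc] with G hG
    have e2 : (⨆ i, P i G) = P hc G := iSup_pos hc
    rw [e1, e2, hG]
  · refine Filter.Eventually.of_forall fun G => ?_
    have e1 : (⨆ i, f i) = ⊥ := iSup_neg hc
    have e2 : (⨆ i, P i G) = ⊥ := iSup_neg hc
    show In G (⨆ i, f i) ↔ ⨆ i, P i G
    rw [e1, e2]
    exact ⟨fun h => (not_in_bot G h).elim, fun h => h.elim⟩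

lemma eq_top (h : Ev a p) (hp : ∀ᶠ G in Gn R, p G) : a = ⊤ := by
  rw [eq_top_iff']
  filter_upwards [h, hp] with G h1 h2
  exact h1.2 h2

lemma eq_bot (h : Ev a p) (hp : ∀ᶠ G in Gn R, ¬ p G) : a = ⊥ := by
  have h1 : aᶜ = ⊤ := eq_top h.compl hp
  rwa [compl_eq_top] at h1

lemma le (ha : Ev a p) (hb : Ev b q) (h : ∀ᶠ G in Gn R, p G → q G) : a ≤ b := by
  rw [le_iff]
  filter_upwards [ha, hb, h] with G h1 h2 h3 h4
  exact h2.2 (h3 (h1.1 h4))

end Ev

lemma vEq_ev {x y : ℚ → RO (Br R)} {x' y' : Br R → ℚ → Prop} (hx : ∀ q, Ev (x q) fun G => x' G q)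
    (hy : ∀ q, Ev (y q) fun G => y' G q) : Ev (vEq x y) fun G => vEq (x' G) (y' G) :=
  Ev.iInf fun q => ((hx q).himp (hy q)).inf ((hy q).himp (hx q))

lemma vReal_ev {x : ℚ → RO (Br R)} {x' : Br R → ℚ → Prop} (hx : ∀ q, Ev (x q) fun G => x' G q) :
    Ev (vReal x) fun G => vReal (x' G) :=
  have h : ∀ q, Ev (⨆ r, ⨆ _ : q < r, x r) fun G => ⨆ r, ⨆ _ : q < r, x' G r := fun _ =>
    Ev.iSup fun r => Ev.iSup_prop fun _ => hx r
  ((Ev.iSup hx).inf (Ev.iSup fun q => (hx q).compl)).inf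
    (Ev.iInf fun q => ((hx q).himp (h q)).inf ((h q).himp (hx q)))

lemma vPlus_ev {x y : ℚ → RO (Br R)} {x' y' : Br R → ℚ → Prop} (hx : ∀ q, Ev (x q) fun G => x' G q)
    (hy : ∀ q, Ev (y q) fun G => y' G q) (q : ℚ) :
    Ev (vPlus x y q) fun G => vPlus (x' G) (y' G) q :=
  Ev.iSup fun r => (hx r).inf (hy (q - r))

lemma vLtAbs_ev {x : ℚ → RO (Br R)} {x' : Br R → ℚ → Prop} (hx : ∀ q, Ev (x q) fun G => x' G q)
    (r : ℚ) : Ev (vLtAbs r x) fun G => vLtAbs r (x' G) :=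
  (hx r).sup (Ev.iSup fun s => Ev.iSup_prop fun _ => (hx s).compl)

lemma vSumLE_ev {m : ℕ} {x : Fin m → ℚ → RO (Br R)} {x' : Br R → Fin m → ℚ → Prop}
    (hx : ∀ i q, Ev (x i q) fun G => x' G i q) (C : ℕ) :
    Ev (vSumLE x C) fun G => vSumLE (x' G) C :=
  Ev.iInf fun r => (Ev.iInf fun i => vLtAbs_ev (x' := fun G => x' G i) (hx i) (r i)).himp
    (Ev.iSup_prop fun _ => Ev.top)

namespace VBA

variable (A : VBA (RO (Br R)))

/-- The algebra named by `A` at `G`. -/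
def at' (G : Br R) : VBA Prop where
  S := A.S
  eq a b := In G (A.eq a b)
  sup := A.sup
  inf := A.inf
  compl := A.compl
  bot := A.bot
  top := A.top
  eq_refl a := eq_top_iff.2 fun _ => by rw [A.eq_refl]; exact in_top G
  eq_symm a b := fun h => h.le (A.eq_symm a b)
  eq_trans a b c := fun h => In.le (A.eq_trans a b c) (in_inf.2 h)
  sup_congr a a' b b' := fun h => In.le (A.sup_congr a a' b b') (in_inf.2 h)
  inf_congr a a' b b' := fun h => In.le (A.inf_congr a a' b b') (in_inf.2 h)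
  compl_congr a a' := fun h => In.le (A.compl_congr a a') h
  sup_comm a b := eq_top_iff.2 fun _ => by rw [A.sup_comm]; exact in_top G
  inf_comm a b := eq_top_iff.2 fun _ => by rw [A.inf_comm]; exact in_top G
  sup_assoc a b c := eq_top_iff.2 fun _ => by rw [A.sup_assoc]; exact in_top G
  inf_assoc a b c := eq_top_iff.2 fun _ => by rw [A.inf_assoc]; exact in_top G
  sup_inf_self a b := eq_top_iff.2 fun _ => by rw [A.sup_inf_self]; exact in_top G
  inf_sup_self a b := eq_top_iff.2 fun _ => by rw [A.inf_sup_self]; exact in_top G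
  inf_sup_left a b c := eq_top_iff.2 fun _ => by rw [A.inf_sup_left]; exact in_top G
  sup_compl a := eq_top_iff.2 fun _ => by rw [A.sup_compl]; exact in_top G
  inf_compl a := eq_top_iff.2 fun _ => by rw [A.inf_compl]; exact in_top G

lemma eq_ev (a b : A.S) : Ev (A.eq a b) fun G => (A.at' G).eq a b := Ev.of _

variable [hSml : Sml A.S]

section
variable {T U : A.S → RO (Br R)} {T' U' : Br R → A.S → Prop} (hT : ∀ a, Ev (T a) fun G => T' G a)
  (hU : ∀ a, Ev (U a) fun G => U' G a)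

include hT in
lemma vSub_ev : Ev (A.vSub T) fun G => (A.at' G).vSub (T' G) := by
  have h : Ev (A.vSub T) fun G => ⨅ a : A.S, ⨅ b : A.S, T' G a ⊓ (A.at' G).eq a b ⇨ T' G b :=
    Ev.iInf fun a => Ev.iInf fun b => ((hT a).inf (A.eq_ev a b)).himp (hT b)
  exact h

include hT hU in
lemma vLE_ev : Ev (A.vLE T U) fun G => (A.at' G).vLE (T' G) (U' G) := by
  have h : Ev (A.vLE T U) fun G => ⨅ a : A.S, T' G a ⇨ U' G a :=
    Ev.iInf fun a => (hT a).himp (hU a)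
  exact h

include hT in
lemma vSubalg_ev : Ev (A.vSubalg T) fun G => (A.at' G).vSubalg (T' G) := by
  have h1 : Ev (⨅ a, ⨅ b, T a ⊓ T b ⇨ T (A.sup a b)) fun G =>
      ⨅ a : A.S, ⨅ b : A.S, T' G a ⊓ T' G b ⇨ T' G (A.sup a b) :=
    Ev.iInf fun a => Ev.iInf fun b => ((hT a).inf (hT b)).himp (hT (A.sup a b))
  have h2 : Ev (⨅ a, T a ⇨ T (A.compl a)) fun G => ⨅ a : A.S, T' G a ⇨ T' G (A.compl a) :=
    Ev.iInf fun a => (hT a).himp (hT (A.compl a))
  exact (((A.vSub_ev hT).inf (hT A.bot)).inf h1).inf h2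

end

lemma vInfinite_ev : Ev A.vInfinite fun G => (A.at' G).vInfinite := by
  have h : Ev A.vInfinite fun G => ⨅ m : ℕ, ⨆ p : Fin m → A.S, ⨅ i, ⨅ j, ⨅ _ : i ≠ j,
      ((A.at' G).eq (p i) (p j))ᶜ :=
    Ev.iInf fun m => Ev.iSup fun p : Fin m → A.S => Ev.iInf fun i => Ev.iInf fun j =>
      Ev.iInf_prop fun _ => (A.eq_ev (p i) (p j)).compl
  exact h

omit hSml in
lemma vDisj_ev (a b : A.S) : Ev (A.vDisj a b) fun G => (A.at' G).vDisj a b :=
  A.eq_ev (A.inf a b) A.bot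

omit hSml in
lemma vPart_ev {m : ℕ} (p : Fin m → A.S) : Ev (A.vPart p) fun G => (A.at' G).vPart p := by
  have h : Ev (A.vPart p) fun G => (⨅ i, ⨅ j, ⨅ _ : i ≠ j, (A.at' G).vDisj (p i) (p j)) ⊓
      (A.at' G).eq (A.join p) A.top :=
    (Ev.iInf fun i => Ev.iInf fun j => Ev.iInf_prop fun _ => A.vDisj_ev (p i) (p j)).inf
      (A.eq_ev (A.join p) A.top)
  exact h

section
variable {μ : A.S → ℚ → RO (Br R)} {μ' : Br R → A.S → ℚ → Prop}
  (h : ∀ a q, Ev (μ a q) fun G => μ' G a q)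
include h

lemma vNormLE_ev (C : ℕ) : Ev (A.vNormLE μ C) fun G => (A.at' G).vNormLE (μ' G) C := by
  have h : Ev (A.vNormLE μ C) fun G => ⨅ m : ℕ, ⨅ p : Fin m → A.S,
      (A.at' G).vPart p ⇨ vSumLE (fun i => μ' G (p i)) C :=
    Ev.iInf fun _ => Ev.iInf fun p => (A.vPart_ev p).himp
      (vSumLE_ev (x' := fun G i => μ' G (p i)) (fun i => h (p i)) C)
  exact h

lemma vFn_ev : Ev (A.vFn μ) fun G => (A.at' G).vFn (μ' G) := by
  have h1 : Ev (⨅ a, vReal (μ a)) fun G => ⨅ a : A.S, vReal (μ' G a) :=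
    Ev.iInf fun a => vReal_ev (x' := fun G => μ' G a) (h a)
  have h2 : Ev (⨅ a, ⨅ b, A.eq a b ⇨ vEq (μ a) (μ b)) fun G =>
      ⨅ a : A.S, ⨅ b : A.S, (A.at' G).eq a b ⇨ vEq (μ' G a) (μ' G b) :=
    Ev.iInf fun a => Ev.iInf fun b => (A.eq_ev a b).himp
      (vEq_ev (x' := fun G => μ' G a) (y' := fun G => μ' G b) (h a) (h b))
  exact h1.inf h2

lemma vAdd_ev : Ev (A.vAdd μ) fun G => (A.at' G).vAdd (μ' G) := by
  have h : Ev (A.vAdd μ) fun G => ⨅ a : A.S, ⨅ b : A.S,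
      (A.at' G).vDisj a b ⇨ vEq (μ' G (A.sup a b)) (vPlus (μ' G a) (μ' G b)) :=
    Ev.iInf fun a => Ev.iInf fun b => (A.vDisj_ev a b).himp
      (vEq_ev (x' := fun G => μ' G (A.sup a b)) (y' := fun G => vPlus (μ' G a) (μ' G b))
        (h (A.sup a b)) (vPlus_ev (x' := fun G => μ' G a) (y' := fun G => μ' G b) (h a) (h b)))
  exact h

lemma vMeas_ev : Ev (A.vMeas μ) fun G => (A.at' G).vMeas (μ' G) :=
  ((A.vFn_ev h).inf (A.vAdd_ev h)).inf (Ev.iSup fun C => A.vNormLE_ev h C)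

end

section
variable {μ : ℕ → A.S → ℚ → RO (Br R)} {μ' : Br R → ℕ → A.S → ℚ → Prop}
  (h : ∀ n a q, Ev (μ n a q) fun G => μ' G n a q)
include h

lemma vPtBdd_ev {T : A.S → RO (Br R)} {T' : Br R → A.S → Prop} (hT : ∀ a, Ev (T a) fun G => T' G a) :
    Ev (A.vPtBdd T μ) fun G => (A.at' G).vPtBdd (T' G) (μ' G) := by
  have h : Ev (A.vPtBdd T μ) fun G => ⨅ a : A.S, T' G a ⇨ ⨆ C : ℕ, ⨅ n,
      vSumLE (fun _ : Fin 1 => μ' G n a) C :=
    Ev.iInf fun a => (hT a).himp (Ev.iSup fun C => Ev.iInf fun n =>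
      vSumLE_ev (x' := fun G _ => μ' G n a) (fun _ => h n a) C)
  exact h

lemma vBdd_ev : Ev (A.vBdd μ) fun G => (A.at' G).vBdd (μ' G) :=
  Ev.iSup fun C => Ev.iInf fun n => A.vNormLE_ev (μ' := fun G => μ' G n) (h n) C

end

lemma vExh_ev {T : ℕ → A.S → RO (Br R)} {T' : Br R → ℕ → A.S → Prop}
    (hT : ∀ n a, Ev (T n a) fun G => T' G n a) :
    Ev (A.vExh T) fun G => (A.at' G).vExh (T' G) := by
  have h1 : Ev (⨅ a, ⨆ n, T n a) fun G => ⨅ a : A.S, ⨆ n, T' G n a :=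
    Ev.iInf fun a => Ev.iSup fun n => hT n a
  exact ((Ev.iInf fun n => A.vSub_ev (T' := fun G => T' G n) (hT n)).inf
    (Ev.iInf fun n => A.vLE_ev (T' := fun G => T' G n) (U' := fun G => T' G (n + 1))
      (hT n) (hT (n + 1)))).inf h1

end VBA

end Pool.Agent.Sc85
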