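import Pool.Agent.Helper71.Nik.MG

/-!
The chain of algebras which is given by a well-ordered family of sets.
-/

namespace Pool.Agent.Sc85

open Set Pool.Agent.Helper71.Nik
open BooleanSubalgebra (closure)

variable {X : Type} {I : Type} [LinearOrder I] [WellFoundedLT I]

/-- the index `i` is not superfluous -/
def NT (g : I → Set X) (i : I) : Prop := g i ∉ closure (g '' Iio i)

/-- the order type of the set of the indices below `i` which are not superfluous -/
noncomputable def rkN (g : I → Set X) (i : I) : Ordinal.{0} :=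
  Ordinal.type (α := {j : I // j < i ∧ NT g j}) (· < ·)

/-- the algebra generated by the first `α` members of the family which are not superfluous -/
def stg (g : I → Set X) (α : Ordinal.{0}) : BooleanSubalgebra (Set X) :=
  closure {x | ∃ j, NT g j ∧ rkN g j < α ∧ g j = x}

/-- `δ` is the number of all indices which are not superfluous, plus one -/
def IsTp (g : I → Set X) (δ : Ordinal.{0}) : Prop :=
  (∀ α, α + 1 < δ → ∃ i, NT g i ∧ rkN g i = α) ∧ ∀ i, NT g i → rkN g i + 1 < δ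

variable (g : I → Set X)

/-- the order of the indices which are not superfluous -/
abbrev rN : {i : I // NT g i} → {i : I // NT g i} → Prop := (· < ·)

lemma rkN_eq (i : {i : I // NT g i}) : rkN g i.1 = Ordinal.typein (rN g) i := by
  rw [← Ordinal.type_subrel]
  unfold rkN
  refine RelIso.ordinalType_congr ?_
  refine ⟨⟨fun j => ⟨⟨j.1, j.2.2⟩, j.2.1⟩, fun j => ⟨j.1.1, j.2, j.1.2⟩, fun j => rfl, fun j => rfl⟩, ?_⟩
  intro a b
  exact Iff.rfl

lemma rkN_lt {i j : I} (hi : NT g i) (hj : NT g j) : rkN g i < rkN g j ↔ i < j := by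
  rw [rkN_eq g ⟨i, hi⟩, rkN_eq g ⟨j, hj⟩, Ordinal.typein_lt_typein]
  exact Iff.rfl

lemma rkN_inj {i j : I} (hi : NT g i) (hj : NT g j) (h : rkN g i = rkN g j) : i = j := by
  rw [rkN_eq g ⟨i, hi⟩, rkN_eq g ⟨j, hj⟩, Ordinal.typein_inj] at h
  exact congrArg Subtype.val h

lemma exists_isTp : ∃ δ, IsTp g δ ∧ 0 < δ ∧ δ ≤ Ordinal.type (α := I) (· < ·) + 1 := by
  refine ⟨Ordinal.type (rN g) + 1, ⟨?_, ?_⟩, ?_, ?_⟩
  · intro α hα
    have hα' : α < Ordinal.type (rN g) := by
      rw [Order.lt_add_one_iff, Order.add_one_le_iff] at hα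
      exact hα
    obtain ⟨j, hj⟩ := Ordinal.typein_surj (rN g) hα'
    exact ⟨j.1, j.2, (rkN_eq g j).trans hj⟩
  · intro i hi
    rw [Order.lt_add_one_iff, Order.add_one_le_iff, rkN_eq g ⟨i, hi⟩]
    exact Ordinal.typein_lt_type _ _
  · exact lt_of_le_of_lt zero_le (Order.lt_add_one_iff.2 le_rfl)
  · refine add_le_add_left ?_ 1
    exact RelEmbedding.ordinal_type_le ⟨⟨Subtype.val, Subtype.val_injective⟩, Iff.rfl⟩

lemma stg_zero : stg g 0 = ⊥ := by
  rw [eq_bot_iff]
  unfold stg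
  rw [BooleanSubalgebra.closure_le]
  rintro x ⟨j, -, hj, rfl⟩
  exact absurd hj (not_lt_of_ge zero_le)

lemma stg_mono {α β : Ordinal.{0}} (h : α ≤ β) : stg g α ≤ stg g β := by
  apply BooleanSubalgebra.closure_mono
  rintro x ⟨k, h1, hk, rfl⟩
  exact ⟨k, h1, hk.trans_le h, rfl⟩

lemma mem_stg_lim {l : Ordinal.{0}} (hl : Order.IsSuccLimit l) (x : Set X) :
    x ∈ stg g l ↔ ∃ α < l, x ∈ stg g α := by
  constructor
  · intro hx
    unfold stg at hx
    induction hx using BooleanSubalgebra.closure_bot_sup_induction with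
    | mem x hx =>
      obtain ⟨j, h1, hj, rfl⟩ := hx
      exact ⟨rkN g j + 1, hl.add_one_lt hj, BooleanSubalgebra.subset_closure
        ⟨j, h1, Order.lt_add_one_iff.2 le_rfl, rfl⟩⟩
    | bot => exact ⟨0, hl.bot_lt, BooleanSubalgebra.bot_mem⟩
    | sup x _ y _ h1 h2 =>
      obtain ⟨α, hα, h1⟩ := h1
      obtain ⟨β, hβ, h2⟩ := h2
      exact ⟨max α β, max_lt hα hβ, union_mem (stg_mono g (le_max_left _ _) h1)
        (stg_mono g (le_max_right _ _) h2)⟩
    | compl x _ h1 =>
      obtain ⟨α, hα, h1⟩ := h1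
      exact ⟨α, hα, compl_mem h1⟩
  · rintro ⟨α, hα, hx⟩
    exact stg_mono g hα.le hx

lemma closure_Iio (i : I) :
    closure (g '' Iio i) = closure {x | ∃ j, NT g j ∧ j < i ∧ g j = x} := by
  induction i using WellFoundedLT.induction with
  | ind i ih =>
    apply le_antisymm
    · rw [BooleanSubalgebra.closure_le]
      rintro _ ⟨j, hj, rfl⟩
      by_cases hjI : NT g j
      · exact BooleanSubalgebra.subset_closure ⟨j, hjI, hj, rfl⟩
      · unfold NT at hjI
        push Not at hjI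
        rw [ih j hj] at hjI
        refine BooleanSubalgebra.closure_mono ?_ hjI
        rintro x ⟨k, h1, hk, rfl⟩
        exact ⟨k, h1, lt_trans hk hj, rfl⟩
    · apply BooleanSubalgebra.closure_mono
      rintro x ⟨k, h1, hk, rfl⟩
      exact ⟨k, hk, rfl⟩

lemma closure_all : closure (range g) = closure {x | ∃ j, NT g j ∧ g j = x} := by
  apply le_antisymm
  · rw [BooleanSubalgebra.closure_le]
    rintro _ ⟨j, rfl⟩
    by_cases hjI : NT g j
    · exact BooleanSubalgebra.subset_closure ⟨j, hjI, rfl⟩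
    · unfold NT at hjI
      push Not at hjI
      rw [closure_Iio g j] at hjI
      refine BooleanSubalgebra.closure_mono ?_ hjI
      rintro x ⟨k, h1, hk, rfl⟩
      exact ⟨k, h1, rfl⟩
  · apply BooleanSubalgebra.closure_mono
    rintro x ⟨k, h1, rfl⟩
    exact ⟨k, rfl⟩

lemma stg_rk {j : I} (hj : NT g j) : stg g (rkN g j) = closure (g '' Iio j) := by
  rw [closure_Iio]
  unfold stg
  congr 1
  ext x
  constructor
  · rintro ⟨k, h1, h2, rfl⟩
    exact ⟨k, h1, (rkN_lt g h1 hj).1 h2, rfl⟩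
  · rintro ⟨k, h1, h2, rfl⟩
    exact ⟨k, h1, (rkN_lt g h1 hj).2 h2, rfl⟩

lemma stg_rk_succ {j : I} (hj : NT g j) : stg g (rkN g j + 1) = adj (stg g (rkN g j)) (g j) := by
  unfold stg
  rw [adj_eq_closure]
  congr 1
  ext x
  constructor
  · rintro ⟨k, h1, hk, rfl⟩
    rcases (Order.lt_add_one_iff.1 hk).lt_or_eq with h | h
    · exact Or.inr ⟨k, h1, h, rfl⟩
    · left
      rw [rkN_inj g h1 hj h]
  · rintro (rfl | ⟨k, h1, hk, rfl⟩)
    · exact ⟨j, hj, Order.lt_add_one_iff.2 le_rfl, rfl⟩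
    · exact ⟨k, h1, hk.trans (Order.lt_add_one_iff.2 le_rfl), rfl⟩

/-- the step of the chain -/
lemma stg_covBy (hS : ∀ i, Simple (closure (g '' Iio i)) (g i)) {δ : Ordinal.{0}} (hδ : IsTp g δ)
    {α : Ordinal.{0}} (h : α + 1 < δ) : stg g α ⋖ stg g (α + 1) := by
  obtain ⟨j, hj, rfl⟩ := hδ.1 α h
  rw [stg_rk_succ g hj]
  apply covBy_adj
  · rw [stg_rk g hj]
    exact hS j
  · rw [stg_rk g hj]
    exact hj

lemma stg_le (α : Ordinal.{0}) : stg g α ≤ closure (range g) := by
  apply BooleanSubalgebra.closure_mono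
  rintro x ⟨k, -, -, rfl⟩
  exact ⟨k, rfl⟩

lemma exists_mem_stg {δ : Ordinal.{0}} (hδ : IsTp g δ) (h0 : 0 < δ) {x : Set X}
    (hx : x ∈ closure (range g)) : ∃ α < δ, x ∈ stg g α := by
  rw [closure_all] at hx
  induction hx using BooleanSubalgebra.closure_bot_sup_induction with
  | mem x hx =>
    obtain ⟨j, h1, rfl⟩ := hx
    exact ⟨rkN g j + 1, hδ.2 j h1, BooleanSubalgebra.subset_closure
      ⟨j, h1, Order.lt_add_one_iff.2 le_rfl, rfl⟩⟩
  | bot => exact ⟨0, h0, BooleanSubalgebra.bot_mem⟩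
  | sup x _ y _ h1 h2 =>
    obtain ⟨α, hα, h1⟩ := h1
    obtain ⟨β, hβ, h2⟩ := h2
    exact ⟨max α β, max_lt hα hβ, union_mem (stg_mono g (le_max_left _ _) h1)
      (stg_mono g (le_max_right _ _) h2)⟩
  | compl x _ h1 =>
    obtain ⟨α, hα, h1⟩ := h1
    exact ⟨α, hα, compl_mem h1⟩

/-- each member of a stage is in a stage which is given by an initial segment of the indices -/
lemma mem_stg_iff_exists [Nonempty I] [NoMaxOrder I] {α : Ordinal.{0}} {x : Set X} :
    x ∈ stg g α ↔ ∃ i, x ∈ closure {y | ∃ j < i, NT g j ∧ rkN g j < α ∧ g j = y} := by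
  have hmono : ∀ i i' : I, i ≤ i' → closure {y | ∃ j < i, NT g j ∧ rkN g j < α ∧ g j = y} ≤
      closure {y | ∃ j < i', NT g j ∧ rkN g j < α ∧ g j = y} := by
    intro i i' h
    apply BooleanSubalgebra.closure_mono
    rintro x ⟨k, hk, h1, h2, rfl⟩
    exact ⟨k, hk.trans_le h, h1, h2, rfl⟩
  constructor
  · intro hx
    unfold stg at hx
    induction hx using BooleanSubalgebra.closure_bot_sup_induction with
    | mem x hx =>
      obtain ⟨j, h1, hj, rfl⟩ := hx
      obtain ⟨i, hi⟩ := exists_gt j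
      exact ⟨i, BooleanSubalgebra.subset_closure ⟨j, hi, h1, hj, rfl⟩⟩
    | bot => exact ⟨Classical.arbitrary I, BooleanSubalgebra.bot_mem⟩
    | sup x _ y _ h1 h2 =>
      obtain ⟨i, h1⟩ := h1
      obtain ⟨i', h2⟩ := h2
      exact ⟨max i i', union_mem (hmono _ _ (le_max_left _ _) h1)
        (hmono _ _ (le_max_right _ _) h2)⟩
    | compl x _ h1 =>
      obtain ⟨i, h1⟩ := h1
      exact ⟨i, compl_mem h1⟩
  · rintro ⟨i, hx⟩
    refine BooleanSubalgebra.closure_mono ?_ hx
    rintro x ⟨k, hk, h1, h2, rfl⟩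
    exact ⟨k, h1, h2, rfl⟩

variable {g}

omit [WellFoundedLT I] in
lemma NT_congr {g g' : I → Set X} {i : I} (h : ∀ j ≤ i, g j = g' j) : NT g i ↔ NT g' i := by
  unfold NT
  have h1 : g '' Iio i = g' '' Iio i := Set.image_congr fun j hj => h j (le_of_lt hj)
  rw [h1, h i le_rfl]

/-- order types of subsets -/
noncomputable def tpS (p : I → Prop) : Ordinal.{0} :=
  Ordinal.type (α := {j : I // p j}) (· < ·)

lemma rkN_congr {g g' : I → Set X} {i : I} (h : ∀ j < i, g j = g' j) : rkN g i = rkN g' i := by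
  show tpS (fun j => j < i ∧ NT g j) = tpS (fun j => j < i ∧ NT g' j)
  congr 1
  funext j
  refine propext (and_congr_right fun hj => NT_congr fun k hk => h k (hk.trans_lt hj))

end Pool.Agent.Sc85
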