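import Pool.Agent.Sc85.Term
import Pool.Agent.Sc85.Fam
import Pool.Agent.Sc85.Chain

/-!
The algebra is minimally generated in the extension.
-/

namespace Pool.Agent.Sc85

open Set Filter Pool.Agent.SigF Pool.Agent.Fo65 Pool.Agent.Helper71.Nik
open BooleanSubalgebra (closure)

/-- The generators up to a given one depend on a countable initial segment. -/
lemma exists_agr_genF (i : Ix) : ∃ δ : Om, ∀ G H : Br RR, Agr G H δ →
    ∀ j ≤ i, genF (FF G) j = genF (FF H) j := by
  obtain ⟨i, rfl⟩ : ∃ i', toLex i' = i := ⟨ofLex i, rfl⟩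
  rcases i with b | k
  · refine ⟨Classical.arbitrary Om, fun G H _ j hj => ?_⟩
    obtain ⟨j, rfl⟩ : ∃ j', toLex j' = j := ⟨ofLex j, rfl⟩
    rcases j with b' | k'
    · rfl
    · exact absurd hj Sum.Lex.not_inr_le_inl
  · obtain ⟨δ, hδ⟩ := exists_gt (ofLex k).1
    refine ⟨δ, fun G H hGH j hj => ?_⟩
    obtain ⟨j, rfl⟩ : ∃ j', toLex j' = j := ⟨ofLex j, rfl⟩
    rcases j with b' | k'
    · rfl
    · have h1 : k' ≤ k := Sum.Lex.inr_le_inr_iff.1 hj
      have h2 : (ofLex k').1 ≤ (ofLex k).1 := by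
        rcases Prod.Lex.le_iff.1 h1 with h | h
        · exact h.le
        · exact h.1.le
      exact FF_congr fun β hβ => (hGH β ((hβ.trans h2).trans_lt hδ)).symm

/-- Properties of the generators up to a given one are open. -/
lemma isOpen_init (i : Ix) {P : (Ix → Set XX) → Prop}
    (hP : ∀ g g', (∀ j ≤ i, g j = g' j) → P g → P g') : IsOpen {G : Br RR | P (genF (FF G))} := by
  intro G hG
  obtain ⟨δ, hδ⟩ := exists_agr_genF i
  exact ⟨δ, fun H hH => hP _ _ (hδ G H hH) hG⟩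

instance : Nonempty Ix := ⟨toLex (Sum.inl (toLex (0, toLex (0, 0))))⟩

lemma isOpen_stg (α : Ordinal.{0}) (t : Tm) :
    IsOpen {G : Br RR | tv (FF G) t ∈ stg (genF (FF G)) α} := by
  intro G hG
  obtain ⟨i, hi⟩ := (mem_stg_iff_exists _).1 hG
  obtain ⟨δ₁, h1⟩ := exists_agr_genF i
  obtain ⟨δ₂, h2⟩ := loc_tv t G
  refine ⟨max δ₁ δ₂, fun H hH => ?_⟩
  have h3 := h1 G H (hH.mono (le_max_left _ _))
  have h4 : tv (FF H) t = tv (FF G) t := h2 H (hH.mono (le_max_right _ _))
  refine (mem_stg_iff_exists _).2 ⟨i, ?_⟩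
  rw [h4]
  have h5 : {y | ∃ j < i, NT (genF (FF H)) j ∧ rkN (genF (FF H)) j < α ∧ genF (FF H) j = y} =
      {y | ∃ j < i, NT (genF (FF G)) j ∧ rkN (genF (FF G)) j < α ∧ genF (FF G) j = y} := by
    ext y
    refine exists_congr fun j => and_congr_right fun hj => ?_
    rw [NT_congr (g := genF (FF G)) (g' := genF (FF H)) fun k hk => h3 k (hk.trans hj.le),
      rkN_congr (g := genF (FF G)) (g' := genF (FF H)) fun k hk => h3 k (hk.le.trans hj.le),
      h3 j hj.le]
  rw [h5]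
  exact hi

/-- the name of the chain -/
noncomputable def CC (α : Ordinal.{0}) (t : AA.S) : RO (Br RR) := val _ (isOpen_stg α t)

lemma sml_of_surj {ι : Sort*} (f : Ix → ι) (hf : Function.Surjective f) : Sml ι := by
  rcases (inferInstance : Sml Ix).out with h | ⟨e, he⟩
  · exact (h.false (Classical.arbitrary Ix)).elim
  · exact ⟨Or.inr ⟨fun i => f (e i), hf.comp he⟩⟩

/-- Sets of ordinals which are at most the type of the indices. -/
lemma sml_ord (p : Ordinal.{0} → Prop) (hp : ∀ α, p α → α ≤ Ordinal.type (α := Ix) (· < ·) + 1) :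
    Sml {α : Ordinal.{0} // p α} := by
  by_cases hne : Nonempty {α : Ordinal.{0} // p α}
  · classical
    obtain ⟨α₀⟩ := hne
    have : Sml (Option (Option Ix)) := by
      rcases (inferInstance : Sml Ix).out with h | ⟨e, he⟩
      · exact (h.false (Classical.arbitrary Ix)).elim
      · obtain ⟨e', he'⟩ := Om.exists_surj (Option (Option ℕ))
        obtain ⟨pr⟩ := Om.exists_pairing
        refine ⟨Or.inr ⟨fun i => match e' (pr i).1 with
          | none => none
          | some none => some none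
          | some (some _) => some (some (e (pr i).2)), ?_⟩⟩
        rintro (_ | (_ | x))
        · obtain ⟨a, ha⟩ := he' none
          exact ⟨pr.symm (a, a), by simp [ha]⟩
        · obtain ⟨a, ha⟩ := he' (some none)
          exact ⟨pr.symm (a, a), by simp [ha]⟩
        · obtain ⟨a, ha⟩ := he' (some (some 0))
          obtain ⟨b, hb⟩ := he x
          exact ⟨pr.symm (a, b), by simp [ha, hb]⟩
    let F : Option (Option Ix) → Ordinal.{0} := fun x => match x with
      | none => Ordinal.type (α := Ix) (· < ·) + 1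
      | some none => Ordinal.type (α := Ix) (· < ·)
      | some (some i) => Ordinal.typein (α := Ix) (· < ·) i
    rcases this.out with h | ⟨e, he⟩
    · exact (h.false none).elim
    · refine ⟨Or.inr ⟨fun i => if h : p (F (e i)) then ⟨F (e i), h⟩ else α₀, ?_⟩⟩
      rintro ⟨α, hα⟩
      have h1 : ∃ x, F x = α := by
        rcases (hp α hα).lt_or_eq with h | h
        · rcases (Order.lt_add_one_iff.1 h).lt_or_eq with h | h
          · obtain ⟨i, hi⟩ := Ordinal.typein_surj (α := Ix) (· < ·) h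
            exact ⟨some (some i), hi⟩
          · exact ⟨some none, h.symm⟩
        · exact ⟨none, h.symm⟩
      obtain ⟨x, rfl⟩ := h1
      obtain ⟨i, rfl⟩ := he x
      exact ⟨i, dif_pos hα⟩
  · exact ⟨Or.inl (not_nonempty_iff.1 hne)⟩

/-- the truth value of `IsTp` -/
lemma exists_tp (δ : Ordinal.{0}) (hδ : δ ≤ Ordinal.type (α := Ix) (· < ·) + 1) :
    ∃ c : RO (Br RR), Ev c fun G => IsTp (genF (FF G)) δ := by
  have ho1 : ∀ (α : Ordinal.{0}) (i : Ix),
      IsOpen {G : Br RR | NT (genF (FF G)) i ∧ rkN (genF (FF G)) i = α} := fun α i =>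
    isOpen_init i (P := fun g => NT g i ∧ rkN g i = α) fun g g' h hg =>
      ⟨(NT_congr h).1 hg.1, (rkN_congr fun j hj => h j hj.le) ▸ hg.2⟩
  have ho2 : ∀ i : Ix, IsOpen {G : Br RR | NT (genF (FF G)) i → rkN (genF (FF G)) i + 1 < δ} :=
    fun i => isOpen_init i (P := fun g => NT g i → rkN g i + 1 < δ) fun g g' h hg hg' => by
      rw [← rkN_congr fun j hj => h j hj.le]
      exact hg ((NT_congr h).2 hg')
  have : Sml {α : Ordinal.{0} // α + 1 < δ} := sml_ord _ fun α h =>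
    (le_self_add.trans h.le).trans hδ
  refine ⟨(⨅ α : {α : Ordinal.{0} // α + 1 < δ}, ⨆ i : Ix, val _ (ho1 α.1 i)) ⊓
    ⨅ i : Ix, val _ (ho2 i), ?_⟩
  have h := (Ev.iInf fun α : {α : Ordinal.{0} // α + 1 < δ} => Ev.iSup fun i : Ix =>
    Ev.val' (ho1 α.1 i)).inf (Ev.iInf fun i : Ix => Ev.val' (ho2 i))
  refine h.mono fun G hG => hG.trans ?_
  unfold IsTp
  simp only [iInf_Prop_eq, iSup_Prop_eq, inf_Prop_eq, Subtype.forall]

section

variable (G : Br RR)

/-- the stages, as subalgebras of the algebra at `G` -/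
noncomputable def stA (α : Ordinal.{0}) : BooleanSubalgebra (fin (FF G)) :=
  (stg (genF (FF G)) α).comap (fin (FF G)).subtype

lemma stg_le_fin (α : Ordinal.{0}) : stg (genF (FF G)) α ≤ fin (FF G) := by
  rw [← closure_genF]
  exact stg_le _ α

lemma simple_genF (i : Ix) :
    Simple (closure (genF (FF G) '' Iio i)) (genF (FF G) i) :=
  genF_simple (FF G) (fun k => (FF_PP G k).1) i

lemma stA_covBy {δ : Ordinal.{0}} (hδ : IsTp (genF (FF G)) δ) {α : Ordinal.{0}}
    (h : α + 1 < δ) : stA G α ⋖ stA G (α + 1) :=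
  comap_covBy (stg_covBy _ (simple_genF G) hδ h) (stg_le_fin G _)

end

/-- the values of the name of the chain -/
lemma CC_ev (α : Ordinal.{0}) (t : AA.S) :
    Ev (CC α t) fun G => tv (FF G) t ∈ stg (genF (FF G)) α := Ev.val' (isOpen_stg α t)

lemma in_CC {α : Ordinal.{0}} {t : AA.S} {G : Br RR} (h : tv (FF G) t ∈ stg (genF (FF G)) α) :
    In G (CC α t) := in_val (p := fun G => tv (FF G) t ∈ stg (genF (FF G)) α) h

lemma CC_mono {α β : Ordinal.{0}} (h : α ≤ β) (t : AA.S) : CC α t ≤ CC β t :=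
  (CC_ev α t).le (CC_ev β t) (Filter.Eventually.of_forall fun _ hG => stg_mono _ h hG)

lemma vLE_CC {α β : Ordinal.{0}} (h : α ≤ β) : AA.vLE (CC α) (CC β) = ⊤ :=
  eq_top_iff.2 (le_iInf fun t => le_himp_iff.2 (inf_le_right.trans (CC_mono h t)))

lemma vSubalg_CC (α : Ordinal.{0}) : AA.vSubalg (CC α) = ⊤ := by
  refine (VBA.vSubalg_ev AA (T' := fun G t => tv (FF G) t ∈ stg (genF (FF G)) α)
    fun t => CC_ev α t).eq_top ?_
  filter_upwards [ev_rep] with G hG
  obtain ⟨ρ, hρ⟩ := hG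
  refine (ρ.vSubalg_iff _).2 ⟨stA G α, fun t => ?_⟩
  show tv (FF G) t ∈ stg (genF (FF G)) α ↔ (ρ.e t : Set XX) ∈ stg (genF (FF G)) α
  rw [hρ t]

lemma le_vMinExt {δ : Ordinal.{0}} {c : RO (Br RR)} (hc : Ev c fun G => IsTp (genF (FF G)) δ)
    {α : Ordinal.{0}} (h : α + 1 < δ) : c ≤ AA.vMinExt (CC α) (CC (α + 1)) := by
  have key : ∀ᶠ G in Gn RR, IsTp (genF (FF G)) δ → (AA.at' G).vMinExt
      (fun t => tv (FF G) t ∈ stg (genF (FF G)) α)
      (fun t => tv (FF G) t ∈ stg (genF (FF G)) (α + 1)) := by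
    filter_upwards [ev_rep] with G hG hT
    obtain ⟨ρ, hρ⟩ := hG
    refine (ρ.vMinExt_iff (𝒯 := stA G α) (𝒰 := stA G (α + 1)) (fun t => ?_) fun t => ?_).2
      (stA_covBy G hT h)
    · show tv (FF G) t ∈ stg (genF (FF G)) α ↔ (ρ.e t : Set XX) ∈ stg (genF (FF G)) α
      rw [hρ t]
    · show tv (FF G) t ∈ stg (genF (FF G)) (α + 1) ↔ (ρ.e t : Set XX) ∈ stg (genF (FF G)) (α + 1)
      rw [hρ t]
  have e1 := fun t => CC_ev α t
  have e2 := fun t => CC_ev (α + 1) t
  refine le_inf (le_inf ?_ ?_) (le_iInf fun D => ?_)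
  · rw [vLE_CC (le_self_add)]
    exact le_top
  · refine hc.le (VBA.vLE_ev AA e2 e1).compl ?_
    filter_upwards [key] with G hG hT
    exact (hG hT).1.2
  · have hD : ∀ a, Ev (D a) fun G => In G (D a) := fun a => Ev.of (D a)
    refine hc.le ((((VBA.vSubalg_ev AA hD).inf (VBA.vLE_ev AA e1 hD)).inf
      (VBA.vLE_ev AA hD e2)).himp ((VBA.vLE_ev AA hD e1).sup (VBA.vLE_ev AA e2 hD))) ?_
    filter_upwards [key] with G hG hT
    exact (iInf_le (fun D' : (AA.at' G).S → Prop =>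
      (AA.at' G).vSubalg D' ⊓ (AA.at' G).vLE _ D' ⊓ (AA.at' G).vLE D' _ ⇨
        (AA.at' G).vLE D' _ ⊔ (AA.at' G).vLE _ D') fun a => In G (D a)) (hG hT).2

lemma le_vChain {δ : Ordinal.{0}} {c : RO (Br RR)} (hc : Ev c fun G => IsTp (genF (FF G)) δ)
    (h0 : 0 < δ) : c ≤ AA.vChain δ CC := by
  refine le_inf (le_inf (le_inf (le_inf (le_inf ?_ ?_) ?_) ?_) ?_) ?_
  · refine le_iInf fun α => le_iInf fun _ => ?_
    rw [vSubalg_CC]
    exact le_top
  · refine le_iInf fun t => le_himp_iff.2 (inf_le_right.trans ?_)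
    refine le_iff.2 ?_
    filter_upwards [CC_ev 0 t] with G h1 h2
    have h3 : tv (FF G) t ∈ stg (genF (FF G)) 0 := h1.1 h2
    rw [stg_zero, BooleanSubalgebra.mem_bot] at h3
    rcases h3 with h3 | h3
    · refine In.le (le_sup_left (a := AA.eq t AA.bot)) ?_
      exact in_val (p := fun G => tv (FF G) t = tv (FF G) Tm.bot) h3
    · refine In.le (le_sup_right (b := AA.eq t AA.top)) ?_
      exact in_val (p := fun G => tv (FF G) t = tv (FF G) Tm.top) h3
  · refine le_iInf fun α => le_iInf fun β => le_iInf fun h => le_iInf fun _ => ?_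
    rw [vLE_CC h]
    exact le_top
  · refine le_iInf fun l => le_iInf fun _ => le_iInf fun hl => le_iInf fun t =>
      le_himp_iff.2 (inf_le_right.trans (le_iff.2 ?_))
    filter_upwards [CC_ev l t] with G h1 h2
    obtain ⟨α, hα, h3⟩ := (mem_stg_lim _ hl _).1 (h1.1 h2)
    exact In.le (le_iSup_of_le α (le_iSup (fun _ : α < l => CC α t) hα)) (in_CC h3)
  · exact le_iInf fun α => le_iInf fun h => le_vMinExt hc h
  · refine le_iInf fun t => le_iff.2 ?_
    filter_upwards [hc] with G h1 h2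
    have h3 : tv (FF G) t ∈ closure (range (genF (FF G))) := by
      rw [closure_genF]
      exact tv_mem _ t
    obtain ⟨α, hα, h4⟩ := exists_mem_stg _ (h1.1 h2) h0 h3
    exact In.le (le_iSup_of_le α (le_iSup (fun _ : α < δ => CC α t) hα)) (in_CC h4)

theorem vMG_AA : AA.vMG = ⊤ := by
  have hc : ∀ δ : {δ : Ordinal.{0} // δ ≤ Ordinal.type (α := Ix) (· < ·) + 1},
      ∃ c : RO (Br RR), Ev c fun G => IsTp (genF (FF G)) δ.1 := fun δ => exists_tp δ.1 δ.2
  choose c hcE using hc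
  have : Sml {δ : Ordinal.{0} // δ ≤ Ordinal.type (α := Ix) (· < ·) + 1} :=
    sml_ord _ fun _ h => h
  refine SigF.eq_top_iff'.2 ?_
  filter_upwards [ev_all_Sml hcE] with G hG
  obtain ⟨δ, h1, h2, h3⟩ := exists_isTp (genF (FF G))
  exact In.le ((le_vChain (hcE ⟨δ, h3⟩) h2).trans
    (le_iSup_of_le δ (le_iSup_of_le CC le_rfl))) ((hG ⟨δ, h3⟩).2 h1)

end Pool.Agent.Sc85
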