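import Pool.Agent.Sc85.Term

/-!
The algebra has the Nikodym property in the extension.
-/

namespace Pool.Agent.Sc85

open Set Filter Pool.Agent.SigF Pool.Agent.Fo65 Pool.Agent.Helper71.Nik

/-- Stages depend on initial segments. -/
lemma FF_congr_lt {G H : Br RR} {β : Om} (h : ∀ γ < β, G γ = H γ) :
    ∀ j < (toLex (β, 0) : Om ×ₗ ℕ), FF G j = FF H j := by
  intro j hj
  have h1 : (ofLex j).1 < β := by
    have h3 : toLex (ofLex j) < toLex (β, 0) := hj
    rw [Prod.Lex.toLex_lt_toLex] at h3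
    rcases h3 with h3 | h3
    · exact h3
    · exact absurd h3.2 (by simp)
  exact FF_congr fun γ hγ => h γ (hγ.trans_lt h1)

/-- a locally determined term for each member of the enumeration of a stage -/
lemma exists_nmT (β : Om) (n : ℕ) : ∃ τ : Br RR → Tm, Loc τ ∧
    ∀ G, tv (FF G) (τ G) = enum (alg (FF G) (toLex (β, 0))) n := by
  have : Inhabited Tm := ⟨Tm.bot⟩
  let Q : Br RR → Tm → Prop := fun G t => Bel (toLex (β, 0)) t ∧
    tv (FF G) t = enum (alg (FF G) (toLex (β, 0))) n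
  refine ⟨fun G => Rel.pick (Q G), ?_, fun G => ?_⟩
  · intro G
    refine ⟨β, fun H hH => ?_⟩
    have h1 : ∀ j < (toLex (β, 0) : Om ×ₗ ℕ), FF H j = FF G j :=
      FF_congr_lt fun γ hγ => hH γ hγ
    have e : Q H = Q G := by
      funext t
      show (Bel (toLex (β, 0)) t ∧ tv (FF H) t = enum (alg (FF H) (toLex (β, 0))) n) =
        (Bel (toLex (β, 0)) t ∧ tv (FF G) t = enum (alg (FF G) (toLex (β, 0))) n)
      rw [alg_congr h1, eq_iff_iff]
      refine and_congr_right fun ht => ?_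
      rw [tv_congr h1 ht]
    show Rel.pick (Q H) = Rel.pick (Q G)
    rw [e]
  · have h1 : Good (alg (FF G) (toLex (β, 0))) := good_alg Om.countable_Iio (FF_PP G) _
    have h2 : enum (alg (FF G) (toLex (β, 0))) n ∈ alg (FF G) (toLex (β, 0)) := by
      have h3 : enum (alg (FF G) (toLex (β, 0))) n ∈
          (alg (FF G) (toLex (β, 0)) : Set (Set XX)) := by
        rw [enum_spec h1.count]
        exact ⟨n, rfl⟩
      exact h3
    obtain ⟨t, ht1, ht2⟩ := exists_tv_alg h2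
    exact (Rel.pick_spec (Q := Q G) ⟨t, ht1, ht2⟩).2

open Classical in
/-- The real number with a given cut. -/
noncomputable def rc (x : ℚ → Prop) : ℝ := if h : ∃ r, x = cut r then h.choose else 0

lemma rc_cut (r : ℝ) : rc (cut r) = r := by
  have h : ∃ s, cut r = cut s := ⟨r, rfl⟩
  unfold rc
  rw [dif_pos h]
  exact (cut_injective h.choose_spec).symm

theorem vNik_AA : AA.vNik = ⊤ := by
  unfold VBA.vNik VBA.vNikOn
  rw [iInf_eq_top]
  intro μ
  rw [himp_eq_top_iff]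
  have h1 : Ev ((⨅ n, AA.vMeas (μ n)) ⊓ AA.vPtBdd (fun _ => ⊤) μ) fun G =>
      (⨅ n, (AA.at' G).vMeas (fun a q => In G (μ n a q))) ⊓
        (AA.at' G).vPtBdd (fun _ => ⊤) (fun n a q => In G (μ n a q)) :=
    (Ev.iInf fun n => AA.vMeas_ev (μ' := fun G a q => In G (μ n a q)) fun a q => Ev.of _).inf
      (AA.vPtBdd_ev (μ' := fun G n a q => In G (μ n a q)) (fun n a q => Ev.of _)
        (T' := fun _ _ => ⊤) fun a => Ev.top)
  have h2 : Ev (AA.vBdd μ) fun G => (AA.at' G).vBdd (fun n a q => In G (μ n a q)) :=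
    AA.vBdd_ev (μ' := fun G n a q => In G (μ n a q)) fun n a q => Ev.of _
  refine h1.le h2 ?_
  -- the guessed function
  choose τ hτ1 hτ2 using exists_nmT
  let φ : Om → Br RR → ℕ → ℕ → ℝ := fun β G n k => rc fun q => In G (μ k (τ β n G) q)
  have h3 : ∀ β, ∀ᶠ G in Gn RR, LocAt (φ β) G := by
    intro β
    have h4 : ∀ᶠ G in Gn RR, ∀ t : AA.S, ∀ k : ℕ, ∀ q : ℚ, LocAt (fun G => In G (μ k t q)) G :=
      ev_all_Sml fun t => ev_all_countable fun k => ev_all_countable fun q => ev_locAt_In _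
    filter_upwards [h4] with G hG
    refine LocAt.pi fun n => LocAt.pi fun k => LocAt.comp (Ψ := fun G (q : ℚ) =>
      In G (μ k (τ β n G) q)) ?_ rc
    refine LocAt.pi fun q => ?_
    exact LocAt.param (Ψ := fun t G => In G (μ k t q)) (hτ1 β n) (hG (τ β n G) k q)
  filter_upwards [guess φ h3, ev_rep] with G hg hrep hall
  obtain ⟨ρ, hρ⟩ := hrep
  obtain ⟨hm, hp⟩ := hall
  have hm' : ∀ n, (AA.at' G).vMeas (fun a q => In G (μ n a q)) := fun n => (iInf_Prop_eq ▸ hm) n
  choose ν hν1 hν2 using fun n => ρ.exists_of_vMeas (hm' n)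
  rw [ρ.vBdd_iff hν1 hν2]
  rw [ρ.vPtBdd_iff hν1] at hp
  refine bdd_of_guess Om.countable_Iio Om.exists_gt_seq G (FF_PP G) ν hν2 ?_ fun α₀ => ?_
  · intro x
    obtain ⟨a, rfl⟩ := ρ.surj x
    exact hp a trivial
  · obtain ⟨α, hα, hlim, hgs⟩ := hg α₀
    refine ⟨α, hα, hlim, fun β hβ n k => ?_⟩
    have h5 : φ β G n k = G α β n k := by rw [hgs β hβ]
    rw [← h5]
    have h6 : tv (FF G) (τ β n G) = enum (alg (FF G) (toLex (β, 0))) n := hτ2 β n G
    have h7 := hρ (τ β n G)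
    rw [← h6, ← h7, ex_apply _ (ρ.e (τ β n G)).2]
    have h8 : (fun q => In G (μ k (τ β n G) q)) = cut (ν k (ρ.e (τ β n G))) := hν1 k (τ β n G)
    exact ((congrArg rc h8).trans (rc_cut _)).symm

theorem vInfinite_AA : AA.vInfinite = ⊤ := by
  refine (AA.vInfinite_ev).eq_top (ev_rep.mono fun G hG => ?_)
  obtain ⟨ρ, -⟩ := hG
  exact ρ.vInfinite_iff.2 (infinite_fin _)

end Pool.Agent.Sc85
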