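import Pool.Agent.Sc85.Term

/-!
The algebra does not have the strong Nikodym property in the extension.
-/

namespace Pool.Agent.Sc85

open Set Filter Pool.Agent.SigF Pool.Agent.Helper71.Nik
open Pool.Agent.Fo65 (RO)

section

variable {Ω : Type} [LinearOrder Ω] [WellFoundedLT Ω] [Nonempty Ω] [NoMaxOrder Ω]

/-- The measures which show that the strong Nikodym property fails. -/
noncomputable def nuS (n₀ k : ℕ) (a : Set XX) : ℝ := (k : ℝ) * co n₀ k a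

theorem nuS_spec (hc : ∀ α : Ω, (Iio α).Countable) {g : Ω → Ω → ℕ → ℕ → ℝ}
    {F : Ω ×ₗ ℕ → Set XX} (hF : ∀ i, PP g i F (F i)) (n₀ : ℕ) :
    (∀ k, IsMeasure fun a : fin F => nuS n₀ k a) ∧
      (∀ a : fin F, (∀ n, n₀ ≤ n → NN n a) → ∃ C : ℝ, ∀ k, |nuS n₀ k a| ≤ C) ∧
      ¬ ∃ C : ℝ, ∀ k, NormLE (fun a : fin F => nuS n₀ k a) C := by
  have hbase : base ≤ fin F := (base_le_alg (toLex (Classical.arbitrary Ω, 0))).trans (alg_le_fin F _)
  have hFA : ∀ k, FA (fin F) (nuS n₀ k) := by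
    intro k a _ b hb hd
    simp only [nuS]
    rw [co_union ((ok_fin hc hF hb).1 n₀) hd]
    ring
  have hco : ∀ k (a : Set XX), |co n₀ k a| ≤ 1 := fun k a =>
    (cf_abs_le _ k).trans MeasureTheory.measureReal_le_one
  have hBdd : ∀ k, Bdd (fin F) (nuS n₀ k) := by
    intro k
    refine ⟨k, fun a _ => ?_⟩
    simp only [nuS]
    rw [abs_mul, Nat.abs_cast]
    exact mul_le_of_le_one_right (Nat.cast_nonneg k) (hco k a)
  refine ⟨fun k => ⟨fun a b hab => hFA k a a.2 b b.2 (disjoint_coe.1 hab), var (fin F) (nuS n₀ k) univ,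
    normLE_of_FA (hFA k) (hBdd k) (fun a => rfl)⟩, fun a ha => ?_, ?_⟩
  · obtain ⟨C, hC⟩ := ha n₀ le_rfl
    refine ⟨C, fun k => ?_⟩
    show |(k : ℝ) * co n₀ k a| ≤ C
    rw [abs_mul, Nat.abs_cast]
    exact hC k
  · rintro ⟨C, hC⟩
    obtain ⟨k, hk⟩ := exists_nat_gt (2 * C)
    have hFL : FL (fun y : Ct => y ∈ {y : Ct | y (2 * k) = true}) :=
      (FL.coord (2 * k)).comp (fun b => b = true)
    have hmem : fib n₀ {y : Ct | y (2 * k) = true} ∈ fin F := hbase (fib_mem_base n₀ hFL)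
    have h1 := abs_le_of_normLE (hC k) ⟨_, hmem⟩
    have h2 : nuS n₀ k (fib n₀ {y : Ct | y (2 * k) = true}) = k * (1 / 2) := by
      show (k : ℝ) * co n₀ k (fib n₀ {y : Ct | y (2 * k) = true}) = k * (1 / 2)
      rw [co, sec_fib_self, cf_half]
    have h3 : |nuS n₀ k (fib n₀ {y : Ct | y (2 * k) = true})| ≤ C := h1
    rw [h2, abs_of_nonneg (by positivity)] at h3
    linarith

end

/-- The exhaustion. -/
noncomputable def TS (m : ℕ) (t : Tm) : RO (Br RR) :=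
  val (fun G => ∀ n, m ≤ n → NN n (tv (FF G) t)) (isOpen_tv t {x | ∀ n, m ≤ n → NN n x})

/-- The measures. -/
noncomputable def muS (n₀ k : ℕ) (t : Tm) (q : ℚ) : RO (Br RR) :=
  val (fun G => cut (nuS n₀ k (tv (FF G) t)) q) (isOpen_tv t {x | cut (nuS n₀ k x) q})

lemma vExh_TS : AA.vExh TS = ⊤ := by
  have h1 : Ev (AA.vExh TS) fun G => (AA.at' G).vExh fun m t =>
      ∀ n, m ≤ n → NN n (tv (FF G) t) :=
    AA.vExh_ev (T' := fun G m (t : Tm) => ∀ n, m ≤ n → NN n (tv (FF G) t)) fun m a => ev_val _ _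
  refine h1.eq_top ?_
  filter_upwards [ev_rep] with G hG
  obtain ⟨ρ, hρ⟩ := hG
  have h2 : (∀ m : ℕ, ∀ a b : Tm, (∀ n, m ≤ n → NN n (tv (FF G) a)) ∧ (AA.at' G).eq a b →
      ∀ n, m ≤ n → NN n (tv (FF G) b)) ∧ (∀ m : ℕ, ∀ a : Tm, (∀ n, m ≤ n → NN n (tv (FF G) a)) →
      ∀ n, m + 1 ≤ n → NN n (tv (FF G) a)) ∧ ∀ a : Tm, ∃ m : ℕ, ∀ n, m ≤ n → NN n (tv (FF G) a) := by
    refine ⟨fun m a b h n hn => ?_, fun m a h n hn => h n (by omega), fun a => ?_⟩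
    · have h3 := (ρ.eq_iff a b).1 h.2
      have h4 : tv (FF G) a = tv (FF G) b := by rw [← hρ a, ← hρ b, h3]
      rw [← h4]
      exact h.1 n hn
    · exact (ok_fin Om.countable_Iio (FF_PP G) (tv_mem (FF G) a)).2.2
  simp only [VBA.vExh, VBA.vSub, VBA.vLE, iInf_Prop_eq, iSup_Prop_eq, inf_Prop_eq, himp_iff_imp]
  exact ⟨⟨h2.1, h2.2.1⟩, h2.2.2⟩

lemma vNikOn_TS (n₀ : ℕ) : AA.vNikOn (TS n₀) = ⊥ := by
  have h1 : Ev ((⨅ n, AA.vMeas (muS n₀ n)) ⊓ AA.vPtBdd (TS n₀) (muS n₀) ⇨ AA.vBdd (muS n₀)) fun G =>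
      ((⨅ n, (AA.at' G).vMeas (fun (a : Tm) q => cut (nuS n₀ n (tv (FF G) a)) q)) ⊓
        (AA.at' G).vPtBdd (fun a : Tm => ∀ n, n₀ ≤ n → NN n (tv (FF G) a))
          (fun n (a : Tm) q => cut (nuS n₀ n (tv (FF G) a)) q) ⇨
        (AA.at' G).vBdd (fun n (a : Tm) q => cut (nuS n₀ n (tv (FF G) a)) q)) :=
    ((Ev.iInf fun n => AA.vMeas_ev (μ' := fun G (a : Tm) q => cut (nuS n₀ n (tv (FF G) a)) q)
      fun a q => ev_val _ _).inf
      (AA.vPtBdd_ev (μ' := fun G n (a : Tm) q => cut (nuS n₀ n (tv (FF G) a)) q)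
        (fun n a q => ev_val _ _) (T' := fun G (a : Tm) => ∀ n, n₀ ≤ n → NN n (tv (FF G) a))
        fun a => ev_val _ _)).himp
      (AA.vBdd_ev (μ' := fun G n (a : Tm) q => cut (nuS n₀ n (tv (FF G) a)) q)
        fun n a q => ev_val _ _)
  have h2 : (⨅ n, AA.vMeas (muS n₀ n)) ⊓ AA.vPtBdd (TS n₀) (muS n₀) ⇨ AA.vBdd (muS n₀) = ⊥ := by
    refine h1.eq_bot ?_
    filter_upwards [ev_rep] with G hG
    obtain ⟨ρ, hρ⟩ := hG
    obtain ⟨hm, hp, hb⟩ := nuS_spec Om.countable_Iio (FF_PP G) n₀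
    have hN : ∀ k, ρ.Nm (fun (a : Tm) q => cut (nuS n₀ k (tv (FF G) a)) q)
        (fun x : fin (FF G) => nuS n₀ k x) := by
      intro k a
      show cut (nuS n₀ k (tv (FF G) a)) = cut (nuS n₀ k (ρ.e a))
      rw [hρ a]
    intro hcon
    have h3 : (⨅ n, (AA.at' G).vMeas (fun (a : Tm) q => cut (nuS n₀ n (tv (FF G) a)) q)) := by
      rw [iInf_Prop_eq]
      exact fun n => (ρ.vMeas_iff (hN n)).2 (hm n)
    have h4 : (AA.at' G).vPtBdd (fun a : Tm => ∀ n, n₀ ≤ n → NN n (tv (FF G) a))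
          (fun n (a : Tm) q => cut (nuS n₀ n (tv (FF G) a)) q) := by
      rw [ρ.vPtBdd_iff hN]
      intro a ha
      refine hp (ρ.e a) fun n hn => ?_
      rw [hρ a]
      exact ha n hn
    have h5 : (AA.at' G).vBdd (fun n (a : Tm) q => cut (nuS n₀ n (tv (FF G) a)) q) := hcon ⟨h3, h4⟩
    rw [ρ.vBdd_iff hN hm] at h5
    exact hb h5
  have h3 : AA.vNikOn (TS n₀) ≤
      (⨅ n, AA.vMeas (muS n₀ n)) ⊓ AA.vPtBdd (TS n₀) (muS n₀) ⇨ AA.vBdd (muS n₀) :=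
    iInf_le _ (muS n₀)
  rw [h2] at h3
  exact le_bot_iff.1 h3

theorem vStrong_AA : AA.vStrong = ⊥ := by
  have h1 : AA.vStrong ≤ AA.vExh TS ⇨ ⨆ n, AA.vNikOn (TS n) := iInf_le _ TS
  rw [vExh_TS] at h1
  simp only [vNikOn_TS, iSup_bot, top_himp] at h1
  exact le_bot_iff.1 h1

end Pool.Agent.Sc85
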