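import Pool.Agent.Sc85.Sane
import Pool.Agent.Sc85.FNik
import Pool.Agent.Sc85.FStr
import Pool.Agent.Sc85.FMG

/-!
The theorem.
-/

namespace Pool.Agent.Sc85

open Pool.Agent.SigF Pool.Agent.Helper71.Nik
open Pool.Agent.Fo65 (RO)

theorem holds_forced : Holds (RO (Br RR)) :=
  ⟨AA, by rw [vInfinite_AA, vMG_AA, vNik_AA, vStrong_AA]; simp⟩

theorem main : (Holds Prop ↔ ∃ (𝔸 : Type) (_ : BooleanAlgebra 𝔸),
      Infinite 𝔸 ∧ MinimallyGenerated 𝔸 ∧ Nikodym 𝔸 ∧ ¬ StrongNikodym 𝔸) ∧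
    ∃ (B : Type) (_ : CompleteBooleanAlgebra B), Nontrivial B ∧ Holds B :=
  ⟨holds_prop_iff, RO (Br RR), inferInstance, inferInstance, holds_forced⟩

end Pool.Agent.Sc85
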