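import Pool.Agent.SigF.Guess65
import Pool.Agent.Helper71.Nik.Main

/-!
A generic function guesses all families of values which are decided densely.
-/

namespace Pool.Agent.Sc85

open Set Filter Pool.Agent.SigF Pool.Agent.Fo65 Pool.Agent.Helper71.Nik

variable {R : Type}

/-- `Ψ` is constant on a neighbourhood of `G`. -/
def LocAt {X : Type*} (Ψ : Br R → X) (G : Br R) : Prop := ∃ δ, ∀ H, Agr G H δ → Ψ H = Ψ G

lemma LocAt.of_loc {X : Type*} {Ψ : Br R → X} (h : Loc Ψ) (G : Br R) : LocAt Ψ G := h G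

lemma LocAt.comp {X Y : Type*} {Ψ : Br R → X} {G : Br R} (h : LocAt Ψ G) (f : X → Y) :
    LocAt (fun G => f (Ψ G)) G := by
  obtain ⟨δ, hδ⟩ := h
  exact ⟨δ, fun H hH => congrArg f (hδ H hH)⟩

lemma LocAt.pi {ι : Type*} [Countable ι] {X : ι → Type*} {Ψ : ∀ i, Br R → X i} {G : Br R}
    (h : ∀ i, LocAt (Ψ i) G) : LocAt (fun G => fun i => Ψ i G) G := by
  choose δ hδ using h
  obtain ⟨ε, hε⟩ := SigF.Om.exists_gt_countable (Set.countable_range δ)
  exact ⟨ε, fun H hH => funext fun i => hδ i H (hH.mono (hε _ ⟨i, rfl⟩).le)⟩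

/-- a locally determined parameter -/
lemma LocAt.param {X T : Type*} {Ψ : T → Br R → X} {τ : Br R → T} (hτ : Loc τ) {G : Br R}
    (h : LocAt (Ψ (τ G)) G) : LocAt (fun G => Ψ (τ G) G) G := by
  obtain ⟨δ, hδ⟩ := h
  obtain ⟨ε, hε⟩ := hτ G
  refine ⟨max δ ε, fun H hH => ?_⟩
  show Ψ (τ H) H = Ψ (τ G) G
  rw [hε H (hH.mono (le_max_right _ _))]
  exact hδ H (hH.mono (le_max_left _ _))

/-- Truth values are decided densely. -/
lemma ev_locAt_In (b : RO (Br R)) : ∀ᶠ G in Gn R, LocAt (fun G => In G b) G := by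
  filter_upwards [ev_compl b] with G hG
  by_cases h : In G b
  · obtain ⟨δ, hδ⟩ := isOpen_In b G h
    exact ⟨δ, fun H hH => propext ⟨fun _ => h, fun _ => hδ H hH⟩⟩
  · obtain ⟨δ, hδ⟩ := isOpen_In bᶜ G (hG.2 h)
    exact ⟨δ, fun H hH => propext
      ⟨fun h2 => absurd h2 (not_mem_of_compl (U := b.val) (hδ H hH)), fun h2 => absurd h2 h⟩⟩

/-- The guessing property of generic functions. -/
theorem guess {V : Type} (φ : SigF.Om → Br (SigF.Om → V) → V)
    (h : ∀ β, ∀ᶠ G in Gn (SigF.Om → V), LocAt (φ β) G) :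
    ∀ᶠ G in Gn (SigF.Om → V), ∀ α₀, ∃ α, α₀ ≤ α ∧ IsLim α ∧ ∀ β < α, φ β G = G α β :=
  ev_guess h

/-- A sequence of measures which is guessed is bounded. -/
theorem bdd_of_guess {Ω : Type} [LinearOrder Ω] [WellFoundedLT Ω] [Nonempty Ω] [NoMaxOrder Ω]
    (hc : ∀ α : Ω, (Iio α).Countable) (hcof : ∀ s : ℕ → Ω, ∃ α, ∀ n, s n < α)
    (g : Ω → Ω → ℕ → ℕ → ℝ) {F : Ω ×ₗ ℕ → Set XX} (hF : ∀ i, PP g i F (F i))
    (μ : ℕ → fin F → ℝ) (hμ : ∀ n, IsMeasure (μ n)) (hpt : ∀ a, ∃ C : ℝ, ∀ n, |μ n a| ≤ C)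
    (hg : ∀ α₀, ∃ α, α₀ ≤ α ∧ IsLim α ∧
      ∀ β < α, ∀ n k, ex (μ k) (enum (alg F (toLex (β, 0))) n) = g α β n k) :
    ∃ C : ℝ, ∀ n, NormLE (μ n) C := by
  by_contra hcon
  push Not at hcon
  set ν : ℕ → Set XX → ℝ := fun k => ex (μ k) with hν
  have hFA : ∀ k, FA (fin F) (ν k) := fun k => FA_ex (hμ k).1
  have hBdd : ∀ k, Bdd (fin F) (ν k) := fun k => by
    obtain ⟨C, hC⟩ := (hμ k).2
    exact Bdd_ex hC
  have hptν : ∀ a ∈ fin F, ∃ C, ∀ k, |ν k a| ≤ C := by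
    intro a ha
    obtain ⟨C, hC⟩ := hpt ⟨a, ha⟩
    exact ⟨C, fun k => by simp only [hν]; rw [ex_apply _ ha]; exact hC k⟩
  have hunb : ∀ C : ℝ, ∃ k, C < var (fin F) (ν k) univ := by
    intro C
    by_contra h
    push Not at h
    obtain ⟨n, hn⟩ := hcon C
    apply hn
    have h1 := normLE_of_FA (μ := μ n) (hFA n) (hBdd n) (fun a => by
      simp only [hν]; rw [ex_apply _ a.2])
    intro P hP hP'
    exact (h1 P hP hP').trans (h n)
  -- stages where the norms are seen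
  have hb : ∀ k, ∃ β : Ω, ∃ b ∈ alg F (toLex (β, 0)),
      var (fin F) (ν k) univ - 1 < |ν k b| + |ν k (univ \ b)| := by
    intro k
    obtain ⟨b, hb, _, hlt⟩ := exists_var_lt (hFA k) (hBdd k) univ_mem (show (0 : ℝ) < 1 by norm_num)
    obtain ⟨β, hβ⟩ := mem_fin hb
    refine ⟨β, b, hβ, ?_⟩
    have h1 := le_abs_self (ν k b)
    have h2 := neg_abs_le (ν k (univ \ b))
    linarith
  choose β b hbm hbv using hb
  obtain ⟨α₁, hα₁⟩ := hcof β
  obtain ⟨α₂, hα₂⟩ := energy (mix_FA hFA hBdd) (mix_nonneg hFA hBdd)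
    (fun α : Ω => alg F (toLex (α, 0))) (stage_mono F) (fun α => alg_le_fin F _)
    (fun x hx => mem_fin hx) hcof
  obtain ⟨α, hα, hlim, hguess⟩ := hg (max α₁ α₂)
  have hGood : Good (alg F (toLex (α, 0))) := good_alg hc hF _
  have hle : alg F (toLex (α, 0)) ≤ fin F := alg_le_fin F _
  have hbad : Bad (alg F (toLex (α, 0))) ν := by
    refine ⟨fun k => (hFA k).mono_alg hle, fun k => (hBdd k).mono_alg hle,
      fun a ha => hptν a (hle ha), fun C => ?_⟩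
    obtain ⟨k, hk⟩ := hunb (C + 1)
    refine ⟨k, ?_⟩
    have hFA' := (hFA k).mono_alg hle
    have hB' := (hBdd k).mono_alg hle
    have hbα : b k ∈ alg F (toLex (α, 0)) :=
      stage_mono F ((hα₁ k).le.trans ((le_max_left _ _).trans hα)) (hbm k)
    have h1 := var_diff hFA' hB' univ_mem hbα (subset_univ (b k))
    have h2 := abs_le_var hFA' hB' hbα hbα le_rfl
    have h3 := abs_le_var hFA' hB' (diff_mem univ_mem hbα) (diff_mem univ_mem hbα) le_rfl
    have h4 := hbv k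
    linarith
  obtain ⟨U, hU⟩ := (hF (toLex (α, 0))).2.2.1 rfl hGood (L2_lim hc hF hlim)
    (fun b hb => cover_lim hlim hb) (fun β _ => good_alg hc hF _) ν
    (fun β hβ n k => hguess β hβ n k) hbad
  exact kill_contra hle hFA hBdd (F_mem_fin F _) hU
    (hα₂ α ((le_max_right _ _).trans hα) U hU.1 _ (F_mem_fin F _)) (hptν _ (F_mem_fin F _))

end Pool.Agent.Sc85
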