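import Pool.Agent.Sc85.Defs

/-!
Real numbers as cuts, for `B = Prop`.
-/

namespace Pool.Agent.Sc85

/-- The Dedekind cut of a real number. -/
def cut (r : ℝ) : ℚ → Prop := fun q => (q : ℝ) < r

lemma cut_injective : Function.Injective cut := by
  intro r s h
  apply le_antisymm
  · by_contra hc
    obtain ⟨q, hq1, hq2⟩ := exists_rat_btwn (not_le.1 hc)
    have h1 : cut s q := h ▸ (show cut r q from hq2)
    exact absurd (show (q : ℝ) < s from h1) (not_lt.2 hq1.le)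
  · by_contra hc
    obtain ⟨q, hq1, hq2⟩ := exists_rat_btwn (not_le.1 hc)
    have h1 : cut r q := h.symm ▸ (show cut s q from hq2)
    exact absurd (show (q : ℝ) < r from h1) (not_lt.2 hq1.le)

lemma vEq_iff (x y : ℚ → Prop) : vEq x y ↔ x = y := by
  simp only [vEq, iInf_Prop_eq, inf_Prop_eq, himp_iff_imp]
  constructor
  · intro h
    funext q
    exact propext ⟨(h q).1, (h q).2⟩
  · rintro rfl q
    exact ⟨id, id⟩

lemma vReal_cut (r : ℝ) : vReal (cut r) := by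
  simp only [vReal, iInf_Prop_eq, iSup_Prop_eq, inf_Prop_eq, himp_iff_imp, compl_iff_not, cut]
  refine ⟨⟨?_, ?_⟩, fun q => ⟨fun h => ?_, ?_⟩⟩
  · obtain ⟨q, hq⟩ := exists_rat_lt r
    exact ⟨q, hq⟩
  · obtain ⟨q, hq⟩ := exists_rat_gt r
    exact ⟨q, not_lt.2 hq.le⟩
  · obtain ⟨s, hs1, hs2⟩ := exists_rat_btwn h
    exact ⟨s, by exact_mod_cast hs1, hs2⟩
  · rintro ⟨s, hs1, hs2⟩
    have : (q : ℝ) < s := by exact_mod_cast hs1
    exact this.trans hs2

lemma vReal_iff (x : ℚ → Prop) : vReal x ↔ ∃ r : ℝ, x = cut r := by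
  constructor
  · intro h
    simp only [vReal, iInf_Prop_eq, iSup_Prop_eq, inf_Prop_eq, himp_iff_imp, compl_iff_not] at h
    obtain ⟨⟨⟨q1, hq1⟩, ⟨q0, hq0⟩⟩, h⟩ := h
    have hbd : ∀ q, x q → q ≤ q0 := by
      intro q hq
      by_contra hc
      exact hq0 ((h q0).2 ⟨q, not_le.1 hc, hq⟩)
    set S : Set ℝ := {t | ∃ q : ℚ, x q ∧ (q : ℝ) = t} with hS
    have hne : S.Nonempty := ⟨q1, q1, hq1, rfl⟩
    have hbdd : BddAbove S := by
      refine ⟨q0, ?_⟩
      rintro _ ⟨q, hq, rfl⟩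
      exact_mod_cast hbd q hq
    refine ⟨sSup S, ?_⟩
    funext q
    apply propext
    constructor
    · intro hq
      obtain ⟨s, hs1, hs2⟩ := (h q).1 hq
      have h1 : (s : ℝ) ≤ sSup S := le_csSup hbdd ⟨s, hs2, rfl⟩
      have h2 : (q : ℝ) < s := by exact_mod_cast hs1
      exact lt_of_lt_of_le h2 h1
    · intro hq
      obtain ⟨_, ⟨s, hs, rfl⟩, hs2⟩ := exists_lt_of_lt_csSup hne hq
      exact (h q).2 ⟨s, by exact_mod_cast hs2, hs⟩
  · rintro ⟨r, rfl⟩
    exact vReal_cut r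

lemma vPlus_cut (r s : ℝ) : vPlus (cut r) (cut s) = cut (r + s) := by
  funext q
  simp only [vPlus, iSup_Prop_eq, inf_Prop_eq, cut]
  apply propext
  constructor
  · rintro ⟨t, h1, h2⟩
    push_cast at h2
    linarith
  · intro h
    obtain ⟨t, h1, h2⟩ := exists_rat_btwn (show (q : ℝ) - s < r by linarith)
    refine ⟨t, h2, ?_⟩
    push_cast
    linarith

lemma vLtAbs_cut (q : ℚ) (r : ℝ) : vLtAbs q (cut r) ↔ (q : ℝ) < |r| := by
  simp only [vLtAbs, iSup_Prop_eq, sup_Prop_eq, compl_iff_not, cut, lt_abs]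
  apply or_congr_right
  constructor
  · rintro ⟨s, h1, h2⟩
    have h3 : (s : ℝ) < -q := by exact_mod_cast h1
    have h4 := not_lt.1 h2
    linarith
  · intro h
    obtain ⟨s, h1, h2⟩ := exists_rat_btwn (show r < -(q : ℝ) by linarith)
    exact ⟨s, by exact_mod_cast h2, not_lt.2 h1.le⟩

lemma vSumLE_cut {m : ℕ} (r : Fin m → ℝ) (C : ℕ) :
    vSumLE (fun i => cut (r i)) C ↔ ∑ i, |r i| ≤ (C : ℝ) := by
  have e : vSumLE (fun i => cut (r i)) C ↔
      ∀ q : Fin m → ℚ, (∀ i, ((q i : ℚ) : ℝ) < |r i|) → ∑ i, q i ≤ (C : ℚ) := by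
    simp only [vSumLE, iInf_Prop_eq, iSup_Prop_eq, himp_iff_imp, vLtAbs_cut]
    apply forall_congr'
    intro q
    apply imp_congr_right
    intro _
    exact ⟨fun ⟨h, _⟩ => h, fun h => ⟨h, trivial⟩⟩
  rw [e]
  constructor
  · intro h
    by_contra hc
    rw [not_le] at hc
    set ε : ℝ := (∑ i, |r i| - C) / (m + 1) with hε
    have hm : (0 : ℝ) < m + 1 := by positivity
    have hε0 : 0 < ε := div_pos (by linarith) hm
    have hq : ∀ i, ∃ q : ℚ, |r i| - ε < q ∧ (q : ℝ) < |r i| := fun i =>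
      exists_rat_btwn (by linarith)
    choose q hq1 hq2 using hq
    have h1 : ((∑ i, q i : ℚ) : ℝ) ≤ C := by exact_mod_cast h q hq2
    have h2 : ∑ i, (|r i| - ε) ≤ ((∑ i, q i : ℚ) : ℝ) := by
      push_cast
      exact Finset.sum_le_sum fun i _ => (hq1 i).le
    rw [Finset.sum_sub_distrib] at h2
    simp only [Finset.sum_const, Finset.card_univ, Fintype.card_fin, nsmul_eq_mul] at h2
    have h3 : (m + 1) * ε = ∑ i, |r i| - C := by
      rw [hε]
      field_simp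
    linarith
  · intro h q hq
    have h1 : ((∑ i, q i : ℚ) : ℝ) ≤ ∑ i, |r i| := by
      push_cast
      exact Finset.sum_le_sum fun i _ => (hq i).le
    have h2 : ((∑ i, q i : ℚ) : ℝ) ≤ C := h1.trans h
    exact_mod_cast h2

end Pool.Agent.Sc85
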