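import Pool.Agent.Sc85.Real
import Pool.Agent.Helper71.Nik.Defs

/-!
For `B = Prop` the definitions have the usual meaning, in the Boolean algebra which is named.
-/

namespace Pool.Agent.Sc85

open Pool.Agent.Helper71.Nik

/-- `𝔸` is the Boolean algebra named by `A`. -/
structure Rep (A : VBA Prop) (𝔸 : Type) [BooleanAlgebra 𝔸] where
  /-- the element with a given name -/
  e : A.S → 𝔸
  surj : Function.Surjective e
  eq_iff : ∀ a b, A.eq a b ↔ e a = e b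
  map_sup : ∀ a b, e (A.sup a b) = e a ⊔ e b
  map_inf : ∀ a b, e (A.inf a b) = e a ⊓ e b
  map_compl : ∀ a, e (A.compl a) = (e a)ᶜ
  map_bot : e A.bot = ⊥
  map_top : e A.top = ⊤

namespace Rep

variable {A : VBA Prop} {𝔸 : Type} [BooleanAlgebra 𝔸] (ρ : Rep A 𝔸)

/-- `μ` is a name of `ν`. -/
def Nm (μ : A.S → ℚ → Prop) (ν : 𝔸 → ℝ) : Prop := ∀ a, μ a = cut (ν (ρ.e a))

include ρ

lemma vInfinite_iff : A.vInfinite ↔ Infinite 𝔸 := by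
  have h : A.vInfinite ↔ ∀ m : ℕ, ∃ p : Fin m → A.S, ∀ i j, i ≠ j → ¬ A.eq (p i) (p j) := by
    simp only [VBA.vInfinite, iInf_Prop_eq, iSup_Prop_eq, compl_iff_not]
  rw [h]
  constructor
  · intro h1
    by_contra h2
    have hf : Finite 𝔸 := not_infinite_iff_finite.1 h2
    obtain ⟨p, hp⟩ := h1 (Nat.card 𝔸 + 1)
    have hinj : Function.Injective fun i => ρ.e (p i) := by
      intro i j hij
      by_contra hne
      exact hp i j hne ((ρ.eq_iff _ _).2 hij)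
    have := Nat.card_le_card_of_injective _ hinj
    rw [Nat.card_fin] at this
    omega
  · intro h1 m
    let f : ℕ ↪ 𝔸 := Infinite.natEmbedding 𝔸
    choose g hg using ρ.surj
    refine ⟨fun i => g (f i), fun i j hij h2 => hij ?_⟩
    have h3 := (ρ.eq_iff _ _).1 h2
    rw [hg, hg] at h3
    exact Fin.ext (f.injective h3)

lemma vDisj_iff (a b : A.S) : A.vDisj a b ↔ Disjoint (ρ.e a) (ρ.e b) := by
  unfold VBA.vDisj
  rw [ρ.eq_iff, ρ.map_inf, ρ.map_bot, disjoint_iff]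

lemma e_join {m : ℕ} (p : Fin m → A.S) : ρ.e (A.join p) = Finset.univ.sup fun i => ρ.e (p i) := by
  unfold VBA.join
  induction m with
  | zero => simp [ρ.map_bot]
  | succ m ih =>
    rw [List.ofFn_succ, List.foldr_cons, ρ.map_sup, ih fun i => p i.succ, Fin.univ_succ,
      Finset.sup_cons, Finset.sup_map]
    rfl

lemma vFn_iff (μ : A.S → ℚ → Prop) : A.vFn μ ↔ ∃ ν, ρ.Nm μ ν := by
  have h : A.vFn μ ↔ (∀ a, vReal (μ a)) ∧ ∀ a b, A.eq a b → vEq (μ a) (μ b) := by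
    simp only [VBA.vFn, iInf_Prop_eq, inf_Prop_eq, himp_iff_imp]
  rw [h]
  constructor
  · rintro ⟨h1, h2⟩
    choose r hr using fun a => (vReal_iff (μ a)).1 (h1 a)
    choose g hg using ρ.surj
    refine ⟨fun x => r (g x), fun a => ?_⟩
    have h3 : A.eq a (g (ρ.e a)) := (ρ.eq_iff _ _).2 (hg _).symm
    rw [(vEq_iff _ _).1 (h2 _ _ h3), hr]
  · rintro ⟨ν, hν⟩
    refine ⟨fun a => ?_, fun a b hab => ?_⟩
    · rw [hν a]
      exact vReal_cut _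
    · rw [vEq_iff, hν a, hν b, (ρ.eq_iff _ _).1 hab]

variable {μ : A.S → ℚ → Prop} {ν : 𝔸 → ℝ}

lemma vAdd_iff (h : ρ.Nm μ ν) :
    A.vAdd μ ↔ ∀ a b : 𝔸, Disjoint a b → ν (a ⊔ b) = ν a + ν b := by
  have h0 : A.vAdd μ ↔ ∀ a b, A.vDisj a b → vEq (μ (A.sup a b)) (vPlus (μ a) (μ b)) := by
    simp only [VBA.vAdd, iInf_Prop_eq, himp_iff_imp]
  have h1 : ∀ a b, vEq (μ (A.sup a b)) (vPlus (μ a) (μ b)) ↔
      ν (ρ.e a ⊔ ρ.e b) = ν (ρ.e a) + ν (ρ.e b) := by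
    intro a b
    rw [vEq_iff, h, h, h, vPlus_cut, ρ.map_sup]
    exact cut_injective.eq_iff
  rw [h0]
  constructor
  · intro h2 x y hxy
    obtain ⟨a, rfl⟩ := ρ.surj x
    obtain ⟨b, rfl⟩ := ρ.surj y
    exact (h1 a b).1 (h2 a b ((ρ.vDisj_iff a b).2 hxy))
  · intro h2 a b hab
    exact (h1 a b).2 (h2 _ _ ((ρ.vDisj_iff a b).1 hab))

omit ρ in
lemma normLE_of_fin {m : ℕ} {C : ℝ} (h0 : ν ⊥ = 0) (h : NormLE ν C) (q : Fin m → 𝔸)
    (hd : ∀ i j, i ≠ j → Disjoint (q i) (q j)) (hs : Finset.univ.sup q = ⊤) :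
    ∑ i, |ν (q i)| ≤ C := by
  classical
  let I : Finset (Fin m) := Finset.univ.filter fun i => q i ≠ ⊥
  have hI : ∑ i, |ν (q i)| = ∑ i ∈ I, |ν (q i)| := by
    rw [Finset.sum_filter_of_ne]
    intro i _ hi hq
    rw [hq, h0, abs_zero] at hi
    exact hi rfl
  have hinj : Set.InjOn q (I : Set (Fin m)) := by
    intro i hi j _ hij
    by_contra hne
    have h1 := hd i j hne
    rw [← hij, disjoint_self] at h1
    exact (Finset.mem_filter.1 hi).2 h1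
  rw [hI, ← Finset.sum_image (f := fun a => |ν a|) (g := q) hinj]
  refine h _ ?_ ?_
  · intro a ha b hb hab
    obtain ⟨i, hi, rfl⟩ := Finset.mem_image.1 (Finset.mem_coe.1 ha)
    obtain ⟨j, hj, rfl⟩ := Finset.mem_image.1 (Finset.mem_coe.1 hb)
    exact hd i j fun h1 => hab (by rw [h1])
  · rw [Finset.sup_image, eq_top_iff, ← hs]
    refine Finset.sup_le fun i _ => ?_
    by_cases hi : q i = ⊥
    · rw [hi]
      exact bot_le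
    · exact Finset.le_sup (f := id ∘ q) (Finset.mem_filter.2 ⟨Finset.mem_univ i, hi⟩)

lemma vNormLE_iff (h : ρ.Nm μ ν) (hadd : ∀ a b : 𝔸, Disjoint a b → ν (a ⊔ b) = ν a + ν b)
    (C : ℕ) : A.vNormLE μ C ↔ NormLE ν C := by
  have h0 : ν ⊥ = 0 := by
    have := hadd ⊥ ⊥ disjoint_bot_left
    rw [sup_idem] at this
    linarith
  have h1 : A.vNormLE μ C ↔ ∀ (m : ℕ) (p : Fin m → A.S),
      ((∀ i j, i ≠ j → A.vDisj (p i) (p j)) ∧ A.eq (A.join p) A.top) →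
        vSumLE (fun i => μ (p i)) C := by
    simp only [VBA.vNormLE, VBA.vPart, iInf_Prop_eq, inf_Prop_eq, himp_iff_imp]
  have h2 : ∀ (m : ℕ) (p : Fin m → A.S), vSumLE (fun i => μ (p i)) C ↔
      ∑ i, |ν (ρ.e (p i))| ≤ (C : ℝ) := by
    intro m p
    have h3 : (fun i => μ (p i)) = fun i => cut (ν (ρ.e (p i))) := funext fun i => h (p i)
    rw [h3]
    exact vSumLE_cut _ C
  rw [h1]
  constructor
  · intro h3 P hP1 hP2
    choose g hg using ρ.surj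
    let f : Fin P.card ≃ P := P.equivFin.symm
    have h4 := (h2 _ fun i => g (f i).1).1 (h3 _ (fun i => g (f i).1) ⟨fun i j hij => ?_, ?_⟩)
    · have h5 : ∑ a ∈ P, |ν a| = ∑ i, |ν (ρ.e (g (f i).1))| := by
        rw [← Finset.sum_coe_sort P fun a => |ν a|]
        refine (Fintype.sum_equiv f _ _ fun i => ?_).symm
        rw [hg]
      rw [h5]
      exact h4
    · rw [ρ.vDisj_iff, hg, hg]
      refine hP1 (f i).2 (f j).2 fun h5 => hij (f.injective (Subtype.ext h5))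
    · rw [ρ.eq_iff, ρ.e_join, ρ.map_top, eq_top_iff, ← hP2]
      refine Finset.sup_le fun a ha => ?_
      have h5 : ρ.e (g (f (f.symm ⟨a, ha⟩)).1) ≤ Finset.univ.sup fun i => ρ.e (g (f i).1) :=
        Finset.le_sup (f := fun i => ρ.e (g (f i).1)) (Finset.mem_univ (f.symm ⟨a, ha⟩))
      rw [Equiv.apply_symm_apply, hg] at h5
      exact h5
  · rintro h3 m p ⟨h4, h5⟩
    rw [h2]
    refine normLE_of_fin h0 h3 (fun i => ρ.e (p i)) (fun i j hij => ?_) ?_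
    · exact (ρ.vDisj_iff _ _).1 (h4 i j hij)
    · rw [← ρ.e_join, ← ρ.map_top]
      exact (ρ.eq_iff _ _).1 h5

omit ρ in
lemma normLE_mono {C D : ℝ} (h : NormLE ν C) (hCD : C ≤ D) : NormLE ν D :=
  fun P h1 h2 => (h P h1 h2).trans hCD

lemma vMeas_iff (h : ρ.Nm μ ν) : A.vMeas μ ↔ IsMeasure ν := by
  have h0 : A.vMeas μ ↔ (A.vFn μ ∧ A.vAdd μ) ∧ ∃ C : ℕ, A.vNormLE μ C := by
    simp only [VBA.vMeas, iSup_Prop_eq, inf_Prop_eq]
  rw [h0, ρ.vAdd_iff h]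
  constructor
  · rintro ⟨⟨-, h1⟩, C, hC⟩
    exact ⟨h1, C, (ρ.vNormLE_iff h h1 C).1 hC⟩
  · rintro ⟨h1, C, hC⟩
    obtain ⟨n, hn⟩ := exists_nat_ge C
    exact ⟨⟨(ρ.vFn_iff μ).2 ⟨ν, h⟩, h1⟩, n, (ρ.vNormLE_iff h h1 n).2 (normLE_mono hC hn)⟩

lemma exists_of_vMeas (h : A.vMeas μ) : ∃ ν, ρ.Nm μ ν ∧ IsMeasure ν := by
  have h0 : A.vFn μ := by
    have h1 : (A.vFn μ ∧ A.vAdd μ) ∧ ∃ C : ℕ, A.vNormLE μ C := by
      simpa only [VBA.vMeas, iSup_Prop_eq, inf_Prop_eq] using h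
    exact h1.1.1
  obtain ⟨ν, hν⟩ := (ρ.vFn_iff μ).1 h0
  exact ⟨ν, hν, (ρ.vMeas_iff hν).1 h⟩

lemma vPtBdd_iff {μ : ℕ → A.S → ℚ → Prop} {ν : ℕ → 𝔸 → ℝ} (h : ∀ n, ρ.Nm (μ n) (ν n))
    (T : A.S → Prop) : A.vPtBdd T μ ↔ ∀ a, T a → ∃ C : ℝ, ∀ n, |ν n (ρ.e a)| ≤ C := by
  have h0 : A.vPtBdd T μ ↔ ∀ a, T a → ∃ C : ℕ, ∀ n, vSumLE (fun _ : Fin 1 => μ n a) C := by
    simp only [VBA.vPtBdd, iInf_Prop_eq, iSup_Prop_eq, himp_iff_imp]
  have h1 : ∀ n a (C : ℕ), vSumLE (fun _ : Fin 1 => μ n a) C ↔ |ν n (ρ.e a)| ≤ (C : ℝ) := by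
    intro n a C
    rw [h n a, vSumLE_cut (fun _ : Fin 1 => ν n (ρ.e a)) C]
    simp
  rw [h0]
  refine forall_congr' fun a => forall_congr' fun _ => ?_
  constructor
  · rintro ⟨C, hC⟩
    exact ⟨C, fun n => (h1 n a C).1 (hC n)⟩
  · rintro ⟨C, hC⟩
    obtain ⟨k, hk⟩ := exists_nat_ge C
    exact ⟨k, fun n => (h1 n a k).2 ((hC n).trans hk)⟩

lemma vBdd_iff {μ : ℕ → A.S → ℚ → Prop} {ν : ℕ → 𝔸 → ℝ} (h : ∀ n, ρ.Nm (μ n) (ν n))
    (hν : ∀ n, IsMeasure (ν n)) : A.vBdd μ ↔ ∃ C : ℝ, ∀ n, NormLE (ν n) C := by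
  have h0 : A.vBdd μ ↔ ∃ C : ℕ, ∀ n, A.vNormLE (μ n) C := by
    simp only [VBA.vBdd, iInf_Prop_eq, iSup_Prop_eq]
  rw [h0]
  constructor
  · rintro ⟨C, hC⟩
    exact ⟨C, fun n => (ρ.vNormLE_iff (h n) (hν n).1 C).1 (hC n)⟩
  · rintro ⟨C, hC⟩
    obtain ⟨k, hk⟩ := exists_nat_ge C
    exact ⟨k, fun n => (ρ.vNormLE_iff (h n) (hν n).1 k).2 (normLE_mono (hC n) hk)⟩

lemma vNikOn_iff (T : A.S → Prop) : A.vNikOn T ↔ NikodymOn {x : 𝔸 | ∃ a, ρ.e a = x ∧ T a} := by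
  have h0 : A.vNikOn T ↔ ∀ μ : ℕ → A.S → ℚ → Prop,
      ((∀ n, A.vMeas (μ n)) ∧ A.vPtBdd T μ) → A.vBdd μ := by
    simp only [VBA.vNikOn, iInf_Prop_eq, inf_Prop_eq, himp_iff_imp]
  rw [h0]
  constructor
  · intro h1 ν hν hpt
    have hN : ∀ n, ρ.Nm (fun a => cut (ν n (ρ.e a))) (ν n) := fun n a => rfl
    refine (ρ.vBdd_iff hN hν).1 (h1 _ ⟨fun n => (ρ.vMeas_iff (hN n)).2 (hν n), ?_⟩)
    exact (ρ.vPtBdd_iff hN T).2 fun a ha => hpt _ ⟨a, rfl, ha⟩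
  · rintro h1 μ ⟨h2, h3⟩
    choose ν hν1 hν2 using fun n => ρ.exists_of_vMeas (h2 n)
    refine (ρ.vBdd_iff hν1 hν2).2 (h1 ν hν2 ?_)
    rintro x ⟨a, rfl, ha⟩
    exact (ρ.vPtBdd_iff hν1 T).1 h3 a ha

lemma vNik_iff : A.vNik ↔ Nikodym 𝔸 := by
  unfold VBA.vNik Nikodym
  have h : {x : 𝔸 | ∃ a, ρ.e a = x ∧ (fun _ : A.S => (⊤ : Prop)) a} = Set.univ := by
    refine Set.eq_univ_of_forall fun x => ?_
    obtain ⟨a, ha⟩ := ρ.surj x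
    exact ⟨a, ha, trivial⟩
  rw [ρ.vNikOn_iff, h]

lemma vStrong_iff : A.vStrong ↔ StrongNikodym 𝔸 := by
  have h0 : A.vStrong ↔ ∀ T : ℕ → A.S → Prop,
      (((∀ n, ∀ a b, (T n a ∧ A.eq a b) → T n b) ∧ ∀ n a, T n a → T (n + 1) a) ∧
        ∀ a, ∃ n, T n a) → ∃ n, A.vNikOn (T n) := by
    simp only [VBA.vStrong, VBA.vExh, VBA.vSub, VBA.vLE, iInf_Prop_eq, iSup_Prop_eq, inf_Prop_eq,
      himp_iff_imp]
  rw [h0]
  constructor
  · intro h1 S hS hU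
    have h2 : ((∀ n, ∀ a b, (ρ.e a ∈ S n ∧ A.eq a b) → ρ.e b ∈ S n) ∧
        ∀ n a, ρ.e a ∈ S n → ρ.e a ∈ S (n + 1)) ∧ ∀ a, ∃ n, ρ.e a ∈ S n := by
      refine ⟨⟨fun n a b => ?_, fun n a ha => hS (Nat.le_succ n) ha⟩, fun a => ?_⟩
      · rintro ⟨ha, hab⟩
        rw [(ρ.eq_iff _ _).1 hab] at ha
        exact ha
      · have : ρ.e a ∈ ⋃ n, S n := hU ▸ Set.mem_univ _
        exact Set.mem_iUnion.1 this
    obtain ⟨n, hn⟩ := h1 (fun n a => ρ.e a ∈ S n) h2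
    refine ⟨n, ?_⟩
    rw [ρ.vNikOn_iff] at hn
    have h : {x : 𝔸 | ∃ a, ρ.e a = x ∧ ρ.e a ∈ S n} = S n := by
      ext x
      constructor
      · rintro ⟨a, rfl, ha⟩
        exact ha
      · intro hx
        obtain ⟨a, rfl⟩ := ρ.surj x
        exact ⟨a, rfl, hx⟩
    rw [h] at hn
    exact hn
  · rintro h1 T ⟨⟨-, h3⟩, h4⟩
    have h5 : Monotone fun n => {x : 𝔸 | ∃ a, ρ.e a = x ∧ T n a} := by
      refine monotone_nat_of_le_succ fun n => ?_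
      rintro x ⟨a, rfl, ha⟩
      exact ⟨a, rfl, h3 n a ha⟩
    have h6 : (⋃ n, {x : 𝔸 | ∃ a, ρ.e a = x ∧ T n a}) = Set.univ := by
      refine Set.eq_univ_of_forall fun x => ?_
      obtain ⟨a, rfl⟩ := ρ.surj x
      obtain ⟨n, hn⟩ := h4 a
      exact Set.mem_iUnion.2 ⟨n, a, rfl, hn⟩
    obtain ⟨n, hn⟩ := h1 _ h5 h6
    exact ⟨n, (ρ.vNikOn_iff _).2 hn⟩

end Rep

end Pool.Agent.Sc85
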