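import Pool.Agent.Sc85.Chain

/-!
The statement `Holds Prop` is the negated form of the question.
-/

namespace Pool.Agent.Sc85

open Pool.Agent.Helper71.Nik

/-- equality of the named algebra -/
def stdD (A : VBA Prop) : Setoid A.S where
  r a b := A.eq a b
  iseqv := ⟨fun a => of_eq_true (A.eq_refl a), fun {a b} h => A.eq_symm a b h,
    fun {a b c} h h' => A.eq_trans a b c ⟨h, h'⟩⟩

/-- the named algebra -/
def QD (A : VBA Prop) : Type := Quotient (stdD A)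

namespace QD

variable (A : VBA Prop)

/-- the class of an element -/
def mk (a : A.S) : QD A := Quotient.mk (stdD A) a

lemma mk_surj : Function.Surjective (mk A) := Quotient.exists_rep

lemma mk_eq (a b : A.S) : mk A a = mk A b ↔ A.eq a b :=
  ⟨fun h => Quotient.exact h, fun h => Quotient.sound h⟩

instance : Max (QD A) :=
  ⟨Quotient.map₂ A.sup fun _ _ h _ _ h' => A.sup_congr _ _ _ _ ⟨h, h'⟩⟩

instance : Min (QD A) :=
  ⟨Quotient.map₂ A.inf fun _ _ h _ _ h' => A.inf_congr _ _ _ _ ⟨h, h'⟩⟩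

instance : Compl (QD A) := ⟨Quotient.map A.compl fun _ _ h => A.compl_congr _ _ h⟩

lemma mk_sup (a b : A.S) : mk A a ⊔ mk A b = mk A (A.sup a b) := rfl

lemma mk_inf (a b : A.S) : mk A a ⊓ mk A b = mk A (A.inf a b) := rfl

lemma mk_compl (a : A.S) : (mk A a)ᶜ = mk A (A.compl a) := rfl

instance : Lattice (QD A) := Lattice.mk'
  (by
    intro a b
    obtain ⟨a, rfl⟩ := mk_surj A a
    obtain ⟨b, rfl⟩ := mk_surj A b
    exact (mk_eq A _ _).2 (of_eq_true (A.sup_comm a b)))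
  (by
    intro a b c
    obtain ⟨a, rfl⟩ := mk_surj A a
    obtain ⟨b, rfl⟩ := mk_surj A b
    obtain ⟨c, rfl⟩ := mk_surj A c
    exact (mk_eq A _ _).2 (of_eq_true (A.sup_assoc a b c)))
  (by
    intro a b
    obtain ⟨a, rfl⟩ := mk_surj A a
    obtain ⟨b, rfl⟩ := mk_surj A b
    exact (mk_eq A _ _).2 (of_eq_true (A.inf_comm a b)))
  (by
    intro a b c
    obtain ⟨a, rfl⟩ := mk_surj A a
    obtain ⟨b, rfl⟩ := mk_surj A b
    obtain ⟨c, rfl⟩ := mk_surj A c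
    exact (mk_eq A _ _).2 (of_eq_true (A.inf_assoc a b c)))
  (by
    intro a b
    obtain ⟨a, rfl⟩ := mk_surj A a
    obtain ⟨b, rfl⟩ := mk_surj A b
    exact (mk_eq A _ _).2 (of_eq_true (A.sup_inf_self a b)))
  (by
    intro a b
    obtain ⟨a, rfl⟩ := mk_surj A a
    obtain ⟨b, rfl⟩ := mk_surj A b
    exact (mk_eq A _ _).2 (of_eq_true (A.inf_sup_self a b)))

instance : DistribLattice (QD A) := DistribLattice.ofInfSupLe (by
  intro a b c
  obtain ⟨a, rfl⟩ := mk_surj A a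
  obtain ⟨b, rfl⟩ := mk_surj A b
  obtain ⟨c, rfl⟩ := mk_surj A c
  exact le_of_eq ((mk_eq A _ _).2 (of_eq_true (A.inf_sup_left a b c))))

lemma sup_compl' (a : QD A) : a ⊔ aᶜ = mk A A.top := by
  obtain ⟨a, rfl⟩ := mk_surj A a
  exact (mk_eq A _ _).2 (of_eq_true (A.sup_compl a))

lemma inf_compl' (a : QD A) : a ⊓ aᶜ = mk A A.bot := by
  obtain ⟨a, rfl⟩ := mk_surj A a
  exact (mk_eq A _ _).2 (of_eq_true (A.inf_compl a))

instance : BooleanAlgebra (QD A) where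
  top := mk A A.top
  bot := mk A A.bot
  inf_compl_le_bot a := le_of_eq (inf_compl' A a)
  top_le_sup_compl a := le_of_eq (sup_compl' A a).symm
  le_top a := by
    show a ≤ mk A A.top
    rw [← sup_compl' A a]
    exact le_sup_left
  bot_le a := by
    show mk A A.bot ≤ a
    rw [← inf_compl' A a]
    exact inf_le_left

end QD

/-- every name names a Boolean algebra -/
lemma exists_rep (A : VBA Prop) : ∃ (𝔸 : Type) (_ : BooleanAlgebra 𝔸), Nonempty (Rep A 𝔸) :=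
  ⟨QD A, inferInstance, ⟨{
    e := QD.mk A
    surj := QD.mk_surj A
    eq_iff := fun a b => (QD.mk_eq A a b).symm
    map_sup := fun _ _ => rfl
    map_inf := fun _ _ => rfl
    map_compl := fun _ => rfl
    map_bot := rfl
    map_top := rfl }⟩⟩

/-- the name of a Boolean algebra -/
def nameD (𝔸 : Type) [BooleanAlgebra 𝔸] : VBA Prop where
  S := 𝔸
  eq a b := a = b
  sup a b := a ⊔ b
  inf a b := a ⊓ b
  compl a := aᶜ
  bot := ⊥
  top := ⊤
  eq_refl _ := eq_true rfl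
  eq_symm _ _ h := h.symm
  eq_trans _ _ _ h := h.1.trans h.2
  sup_congr _ _ _ _ h := by rw [h.1, h.2]
  inf_congr _ _ _ _ h := by rw [h.1, h.2]
  compl_congr _ _ h := by rw [h]
  sup_comm a b := eq_true (sup_comm a b)
  inf_comm a b := eq_true (inf_comm a b)
  sup_assoc a b c := eq_true (sup_assoc a b c)
  inf_assoc a b c := eq_true (inf_assoc a b c)
  sup_inf_self _ _ := eq_true sup_inf_self
  inf_sup_self _ _ := eq_true inf_sup_self
  inf_sup_left a b c := eq_true (inf_sup_left a b c)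
  sup_compl _ := eq_true sup_compl_eq_top
  inf_compl _ := eq_true inf_compl_eq_bot

/-- every Boolean algebra is named -/
lemma exists_name (𝔸 : Type) [BooleanAlgebra 𝔸] : ∃ A : VBA Prop, Nonempty (Rep A 𝔸) :=
  ⟨nameD 𝔸, ⟨{
    e := id
    surj := fun a => ⟨a, rfl⟩
    eq_iff := fun _ _ => Iff.rfl
    map_sup := fun _ _ => rfl
    map_inf := fun _ _ => rfl
    map_compl := fun _ => rfl
    map_bot := rfl
    map_top := rfl }⟩⟩

theorem holds_prop_iff : Holds Prop ↔ ∃ (𝔸 : Type) (_ : BooleanAlgebra 𝔸),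
    Infinite 𝔸 ∧ MinimallyGenerated 𝔸 ∧ Nikodym 𝔸 ∧ ¬ StrongNikodym 𝔸 := by
  have key : ∀ (A : VBA Prop) (𝔸 : Type) [BooleanAlgebra 𝔸], Rep A 𝔸 →
      ((A.vInfinite ⊓ A.vMG ⊓ A.vNik ⊓ A.vStrongᶜ = ⊤) ↔
        Infinite 𝔸 ∧ MinimallyGenerated 𝔸 ∧ Nikodym 𝔸 ∧ ¬ StrongNikodym 𝔸) := by
    intro A 𝔸 _ ρ
    rw [← ρ.vInfinite_iff, ← ρ.vMG_iff, ← ρ.vNik_iff, ← ρ.vStrong_iff]
    constructor
    · intro h
      have h1 : ((A.vInfinite ∧ A.vMG) ∧ A.vNik) ∧ ¬ A.vStrong := of_eq_true h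
      exact ⟨h1.1.1.1, h1.1.1.2, h1.1.2, h1.2⟩
    · rintro ⟨h1, h2, h3, h4⟩
      exact eq_true (show ((A.vInfinite ∧ A.vMG) ∧ A.vNik) ∧ ¬ A.vStrong from
        ⟨⟨⟨h1, h2⟩, h3⟩, h4⟩)
  constructor
  · rintro ⟨A, hA⟩
    obtain ⟨𝔸, _, ⟨ρ⟩⟩ := exists_rep A
    exact ⟨𝔸, _, (key A 𝔸 ρ).1 hA⟩
  · rintro ⟨𝔸, _, h⟩
    obtain ⟨A, ⟨ρ⟩⟩ := exists_name 𝔸
    exact ⟨A, (key A 𝔸 ρ).2 h⟩

end Pool.Agent.Sc85
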