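import Pool.Agent.Sc85.Rep
import Pool.Agent.Sc85.Ev
import Pool.Agent.Sc85.Guess
import Pool.Agent.SigF.Loc65

/-!
The algebra: terms in the generators, evaluated along a function `G`.
-/

namespace Pool.Agent.Sc85

open Set Filter Pool.Agent.SigF Pool.Agent.Helper71.Nik
open Pool.Agent.Fo65 (RO)
open BooleanSubalgebra (closure)

/-- The values of the functions `G`. -/
abbrev RR : Type := Om → ℕ → ℕ → ℝ


/-- Indices of the generators. -/
abbrev Ix : Type := BI ⊕ₗ (Om ×ₗ ℕ)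

instance : WellFoundedLT Ix := ⟨Sum.lex_wf wellFounded_lt wellFounded_lt⟩

/-- Terms. -/
inductive Tm : Type
  | gen : Ix → Tm
  | bot : Tm
  | top : Tm
  | sup : Tm → Tm → Tm
  | inf : Tm → Tm → Tm
  | compl : Tm → Tm

/-- The generators. -/
def genF (F : Om ×ₗ ℕ → Set XX) (i : Ix) : Set XX := Sum.elim bc F (ofLex i)

/-- The value of a term. -/
def tv (F : Om ×ₗ ℕ → Set XX) : Tm → Set XX
  | .gen i => genF F i
  | .bot => ∅
  | .top => univ
  | .sup s t => tv F s ∪ tv F t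
  | .inf s t => tv F s ∩ tv F t
  | .compl s => (tv F s)ᶜ

instance : Sml Ix := by
  have : Countable BI := inferInstanceAs (Countable (ℕ × ℕ × ℕ))
  refine Sml.of_surj (ι := Bool × BI × (Om × ℕ))
    (fun x => if x.1 then toLex (Sum.inl x.2.1) else toLex (Sum.inr (toLex x.2.2))) fun i => ?_
  obtain ⟨i, rfl⟩ : ∃ i', toLex i' = i := ⟨ofLex i, rfl⟩
  rcases i with i | i
  · exact ⟨(true, i, (Classical.arbitrary Om, 0)), by simp⟩
  · exact ⟨(false, toLex (0, toLex (0, 0)), ofLex i), by simp⟩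

/-- the depth of a term -/
def Tm.dep : Tm → ℕ
  | .gen _ => 0
  | .bot => 0
  | .top => 0
  | .sup s t => max s.dep t.dep + 1
  | .inf s t => max s.dep t.dep + 1
  | .compl s => s.dep + 1

lemma Sml.iUnion {α : Type*} {s : ℕ → Set α} (h : ∀ n, Sml (s n)) (hU : ∀ x, ∃ n, x ∈ s n) :
    Sml α := by
  classical
  rcases isEmpty_or_nonempty α with hα | hα
  · exact ⟨Or.inl hα⟩
  have h1 : ∀ n, ∃ f : Om → α, ∀ x ∈ s n, ∃ i, f i = x := by
    intro n
    rcases (h n).out with h0 | ⟨e, he⟩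
    · exact ⟨fun _ => Classical.arbitrary α, fun x hx => (h0.false ⟨x, hx⟩).elim⟩
    · refine ⟨fun i => (e i).1, fun x hx => ?_⟩
      obtain ⟨i, hi⟩ := he ⟨x, hx⟩
      exact ⟨i, congrArg Subtype.val hi⟩
  choose f hf using h1
  exact Sml.of_surj (ι := ℕ × Om) (fun x => f x.1 x.2) fun x => by
    obtain ⟨n, hn⟩ := hU x
    obtain ⟨i, hi⟩ := hf n x hn
    exact ⟨(n, i), hi⟩

instance : Sml Tm := by
  refine Sml.iUnion (s := fun n => {t | t.dep ≤ n}) (fun n => ?_) fun t => ⟨t.dep, le_refl t.dep⟩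
  induction n with
  | zero =>
    refine Sml.of_surj (ι := Fin 3 × Ix) (fun x =>
      if x.1 = 0 then ⟨.bot, Nat.le_refl 0⟩ else if x.1 = 1 then ⟨.top, Nat.le_refl 0⟩ else
      ⟨.gen x.2, Nat.le_refl 0⟩) ?_
    rintro ⟨t, ht⟩
    have i0 : Ix := toLex (Sum.inl (toLex (0, toLex (0, 0))))
    cases t with
    | gen i => exact ⟨(2, i), by simp⟩
    | bot => exact ⟨(0, i0), by simp⟩
    | top => exact ⟨(1, i0), by simp⟩
    | sup s t => exact absurd ht (by simp [Tm.dep])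
    | inf s t => exact absurd ht (by simp [Tm.dep])
    | compl s => exact absurd ht (by simp [Tm.dep])
  | succ n ih =>
    have := ih
    refine Sml.of_surj (ι := Fin 6 × Ix × {t : Tm | t.dep ≤ n} × {t : Tm | t.dep ≤ n}) (fun x =>
      if x.1 = 0 then ⟨.bot, Nat.zero_le _⟩ else if x.1 = 1 then ⟨.top, Nat.zero_le _⟩ else
      if x.1 = 2 then ⟨.gen x.2.1, Nat.zero_le _⟩ else
      if x.1 = 3 then ⟨.sup x.2.2.1 x.2.2.2, Nat.succ_le_succ (max_le x.2.2.1.2 x.2.2.2.2)⟩ else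
      if x.1 = 4 then ⟨.inf x.2.2.1 x.2.2.2, Nat.succ_le_succ (max_le x.2.2.1.2 x.2.2.2.2)⟩ else
      ⟨.compl x.2.2.1, Nat.succ_le_succ x.2.2.1.2⟩) ?_
    rintro ⟨t, ht⟩
    have i0 : Ix := toLex (Sum.inl (toLex (0, toLex (0, 0))))
    have b0 : {t : Tm | t.dep ≤ n} := ⟨.bot, Nat.zero_le _⟩
    cases t with
    | gen i => exact ⟨(2, i, b0, b0), by simp⟩
    | bot => exact ⟨(0, i0, b0, b0), by simp⟩
    | top => exact ⟨(1, i0, b0, b0), by simp⟩
    | sup s t =>
      have h := Nat.le_of_succ_le_succ ht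
      exact ⟨(3, i0, ⟨s, (le_max_left _ _).trans h⟩, ⟨t, (le_max_right _ _).trans h⟩), by simp⟩
    | inf s t =>
      have h := Nat.le_of_succ_le_succ ht
      exact ⟨(4, i0, ⟨s, (le_max_left _ _).trans h⟩, ⟨t, (le_max_right _ _).trans h⟩), by simp⟩
    | compl s =>
      have h := Nat.le_of_succ_le_succ ht
      exact ⟨(5, i0, ⟨s, h⟩, b0), by simp⟩

lemma genF_inl (F : Om ×ₗ ℕ → Set XX) (i : BI) : genF F (toLex (Sum.inl i)) = bc i := rfl

lemma genF_inr (F : Om ×ₗ ℕ → Set XX) (i : Om ×ₗ ℕ) : genF F (toLex (Sum.inr i)) = F i := rfl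

lemma closure_genF (F : Om ×ₗ ℕ → Set XX) : closure (range (genF F)) = fin F := by
  unfold fin
  congr 1
  rw [← range_bc]
  ext s
  constructor
  · rintro ⟨j, rfl⟩
    obtain ⟨j, rfl⟩ : ∃ j', toLex j' = j := ⟨ofLex j, rfl⟩
    rcases j with j | j
    · exact Or.inl ⟨j, rfl⟩
    · exact Or.inr ⟨j, rfl⟩
  · rintro (⟨j, rfl⟩ | ⟨j, rfl⟩)
    · exact ⟨toLex (Sum.inl j), rfl⟩
    · exact ⟨toLex (Sum.inr j), rfl⟩

lemma genF_Iio_inl (F : Om ×ₗ ℕ → Set XX) (i : BI) :
    genF F '' Iio (toLex (Sum.inl i)) = bc '' Iio i := by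
  ext s
  constructor
  · rintro ⟨j, hj, rfl⟩
    obtain ⟨j, rfl⟩ : ∃ j', toLex j' = j := ⟨ofLex j, rfl⟩
    rcases j with j | j
    · exact ⟨j, Sum.Lex.inl_lt_inl_iff.1 hj, rfl⟩
    · exact absurd hj Sum.Lex.not_inr_lt_inl
  · rintro ⟨j, hj, rfl⟩
    exact ⟨toLex (Sum.inl j), Sum.Lex.inl_lt_inl_iff.2 hj, rfl⟩

lemma closure_genF_Iio_inr (F : Om ×ₗ ℕ → Set XX) (i : Om ×ₗ ℕ) :
    closure (genF F '' Iio (toLex (Sum.inr i))) = alg F i := by
  unfold alg
  congr 1
  rw [← range_bc]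
  ext s
  constructor
  · rintro ⟨j, hj, rfl⟩
    obtain ⟨j, rfl⟩ : ∃ j', toLex j' = j := ⟨ofLex j, rfl⟩
    rcases j with j | j
    · exact Or.inl ⟨j, rfl⟩
    · exact Or.inr ⟨j, Sum.Lex.inr_lt_inr_iff.1 hj, rfl⟩
  · rintro (⟨j, rfl⟩ | ⟨j, hj, rfl⟩)
    · exact ⟨toLex (Sum.inl j), Sum.Lex.inl_lt_inr _ _, rfl⟩
    · exact ⟨toLex (Sum.inr j), Sum.Lex.inr_lt_inr_iff.2 hj, rfl⟩

lemma genF_simple (F : Om ×ₗ ℕ → Set XX) (hF : ∀ i, Simple (alg F i) (F i)) (i : Ix) :
    Simple (closure (genF F '' Iio i)) (genF F i) := by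
  obtain ⟨i, rfl⟩ : ∃ i', toLex i' = i := ⟨ofLex i, rfl⟩
  rcases i with i | i
  · rw [genF_Iio_inl, genF_inl]
    exact bc_simple i
  · rw [closure_genF_Iio_inr, genF_inr]
    exact hF i

lemma tv_mem (F : Om ×ₗ ℕ → Set XX) (t : Tm) : tv F t ∈ fin F := by
  induction t with
  | gen i =>
    rw [← closure_genF]
    exact BooleanSubalgebra.subset_closure ⟨i, rfl⟩
  | bot => exact BooleanSubalgebra.bot_mem
  | top => exact BooleanSubalgebra.top_mem
  | sup s t hs ht => exact union_mem hs ht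
  | inf s t hs ht => exact inter_mem hs ht
  | compl s hs => exact compl_mem hs

lemma exists_tv {F : Om ×ₗ ℕ → Set XX} {x : Set XX} (hx : x ∈ fin F) : ∃ t, tv F t = x := by
  rw [← closure_genF] at hx
  induction hx using BooleanSubalgebra.closure_bot_sup_induction with
  | mem x hx =>
    obtain ⟨i, rfl⟩ := hx
    exact ⟨.gen i, rfl⟩
  | bot => exact ⟨.bot, rfl⟩
  | sup x _ y _ h1 h2 =>
    obtain ⟨s, rfl⟩ := h1
    obtain ⟨t, rfl⟩ := h2
    exact ⟨.sup s t, rfl⟩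
  | compl x _ h1 =>
    obtain ⟨s, rfl⟩ := h1
    exact ⟨.compl s, rfl⟩

/-- the term has only generators with index less than `i`, apart from the basic cylinders -/
def Bel (i : Om ×ₗ ℕ) : Tm → Prop
  | .gen j => ∀ k, ofLex j = Sum.inr k → k < i
  | .bot => True
  | .top => True
  | .sup s t => Bel i s ∧ Bel i t
  | .inf s t => Bel i s ∧ Bel i t
  | .compl s => Bel i s

lemma exists_tv_alg {F : Om ×ₗ ℕ → Set XX} {i : Om ×ₗ ℕ} {x : Set XX} (hx : x ∈ alg F i) :
    ∃ t, Bel i t ∧ tv F t = x := by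
  unfold alg at hx
  induction hx using BooleanSubalgebra.closure_bot_sup_induction with
  | mem x hx =>
    rw [← range_bc] at hx
    rcases hx with ⟨j, rfl⟩ | ⟨j, hj, rfl⟩
    · exact ⟨.gen (toLex (Sum.inl j)), fun k hk => by simp at hk, rfl⟩
    · refine ⟨.gen (toLex (Sum.inr j)), fun k hk => ?_, rfl⟩
      rw [ofLex_toLex] at hk
      exact Sum.inr.inj hk ▸ hj
  | bot => exact ⟨.bot, trivial, rfl⟩
  | sup x _ y _ h1 h2 =>
    obtain ⟨s, hs, rfl⟩ := h1
    obtain ⟨t, ht, rfl⟩ := h2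
    exact ⟨.sup s t, ⟨hs, ht⟩, rfl⟩
  | compl x _ h1 =>
    obtain ⟨s, hs, rfl⟩ := h1
    exact ⟨.compl s, hs, rfl⟩

lemma tv_congr {F F' : Om ×ₗ ℕ → Set XX} {i : Om ×ₗ ℕ} (h : ∀ j < i, F j = F' j) {t : Tm}
    (ht : Bel i t) : tv F t = tv F' t := by
  induction t with
  | gen j =>
    obtain ⟨j, rfl⟩ : ∃ j', toLex j' = j := ⟨ofLex j, rfl⟩
    rcases j with j | j
    · rfl
    · exact h j (ht j rfl)
  | bot => rfl
  | top => rfl
  | sup s t hs ht' =>
    show tv F s ∪ tv F t = tv F' s ∪ tv F' t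
    rw [hs ht.1, ht' ht.2]
  | inf s t hs ht' =>
    show tv F s ∩ tv F t = tv F' s ∩ tv F' t
    rw [hs ht.1, ht' ht.2]
  | compl s hs =>
    show (tv F s)ᶜ = (tv F' s)ᶜ
    rw [hs ht]

/-- The sets, depending locally on `G`. -/
theorem exists_FF : ∃ F : Br RR → Om ×ₗ ℕ → Set XX, (∀ G i, PP G i (F G) (F G i)) ∧
    ∀ G H i, (∀ β ≤ (ofLex i).1, G β = H β) → F G i = F H i := by
  obtain ⟨D, h1, h2⟩ := Rel.exists_rec_loc (I := Om ×ₗ ℕ) (R := RR) (X := Set XX)
    (fun G i F t => PP (fun _ => G i) i F t)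
    (fun G G' i F t h hP => by rw [← h i le_rfl]; exact hP)
    (fun G i F F' t h hP => PP_dep _ i F F' t h hP)
    (fun G i F _ => PP_ex _ i F)
  refine ⟨fun G => D fun i => G (ofLex i).1, fun G i => h1 _ i, fun G H i h => h2 _ _ i ?_⟩
  intro j hj
  apply h
  have hj' : toLex (ofLex j) ≤ toLex (ofLex i) := hj
  rw [Prod.Lex.toLex_le_toLex] at hj'
  rcases hj' with hj' | hj'
  · exact hj'.le
  · exact hj'.1.le

/-- The sets. -/
noncomputable def FF (G : Br RR) : Om ×ₗ ℕ → Set XX := exists_FF.choose G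

lemma FF_PP (G : Br RR) (i : Om ×ₗ ℕ) : PP G i (FF G) (FF G i) := exists_FF.choose_spec.1 G i

lemma FF_congr {G H : Br RR} {i : Om ×ₗ ℕ} (h : ∀ β ≤ (ofLex i).1, G β = H β) :
    FF G i = FF H i := exists_FF.choose_spec.2 G H i h

lemma loc_genF (i : Ix) : Loc fun G : Br RR => genF (FF G) i := by
  obtain ⟨i, rfl⟩ : ∃ i', toLex i' = i := ⟨ofLex i, rfl⟩
  rcases i with i | i
  · exact Loc.const (bc i)
  · intro G
    obtain ⟨δ, hδ⟩ := exists_gt (ofLex i).1
    exact ⟨δ, fun H hH => FF_congr fun β hβ => hH β (hβ.trans_lt hδ)⟩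

lemma loc_tv (t : Tm) : Loc fun G : Br RR => tv (FF G) t := by
  induction t with
  | gen i => exact loc_genF i
  | bot => exact Loc.const ∅
  | top => exact Loc.const univ
  | sup s t hs ht => exact (hs.prod ht).comp fun x => x.1 ∪ x.2
  | inf s t hs ht => exact (hs.prod ht).comp fun x => x.1 ∩ x.2
  | compl s hs => exact hs.comp fun x => xᶜ

lemma isOpen_tv (t : Tm) (s : Set (Set XX)) : IsOpen {G : Br RR | tv (FF G) t ∈ s} :=
  (loc_tv t).isOpen s

lemma isOpen_eq (s t : Tm) : IsOpen {G : Br RR | tv (FF G) s = tv (FF G) t} :=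
  (((loc_tv s).prod (loc_tv t)).comp fun x => x.1 = x.2).isOpen_prop

/-- The truth value of the equality of two terms. -/
noncomputable def teq (s t : Tm) : RO (Br RR) := val _ (isOpen_eq s t)

lemma teq_ev (s t : Tm) : Ev (teq s t) fun G => tv (FF G) s = tv (FF G) t := ev_val _ _

lemma teq_top {s t : Tm} (h : ∀ G, tv (FF G) s = tv (FF G) t) : teq s t = ⊤ :=
  (teq_ev s t).eq_top (Filter.Eventually.of_forall h)

/-- The Boolean algebra of the extension. -/
noncomputable def AA : VBA (RO (Br RR)) where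
  S := Tm
  eq := teq
  sup := .sup
  inf := .inf
  compl := .compl
  bot := .bot
  top := .top
  eq_refl s := teq_top fun _ => rfl
  eq_symm s t := (teq_ev s t).le (teq_ev t s) (Filter.Eventually.of_forall fun _ h => h.symm)
  eq_trans s t u := ((teq_ev s t).inf (teq_ev t u)).le (teq_ev s u)
    (Filter.Eventually.of_forall fun _ h => h.1.trans h.2)
  sup_congr a a' b b' := ((teq_ev a a').inf (teq_ev b b')).le (teq_ev (.sup a b) (.sup a' b'))
    (Filter.Eventually.of_forall fun _ h => congrArg₂ (· ∪ ·) h.1 h.2)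
  inf_congr a a' b b' := ((teq_ev a a').inf (teq_ev b b')).le (teq_ev (.inf a b) (.inf a' b'))
    (Filter.Eventually.of_forall fun _ h => congrArg₂ (· ∩ ·) h.1 h.2)
  compl_congr a a' := (teq_ev a a').le (teq_ev (.compl a) (.compl a'))
    (Filter.Eventually.of_forall fun _ h => congrArg (·ᶜ) h)
  sup_comm a b := teq_top fun _ => union_comm _ _
  inf_comm a b := teq_top fun _ => inter_comm _ _
  sup_assoc a b c := teq_top fun _ => union_assoc _ _ _
  inf_assoc a b c := teq_top fun _ => inter_assoc _ _ _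
  sup_inf_self a b := teq_top fun _ => sup_inf_self
  inf_sup_self a b := teq_top fun _ => inf_sup_self
  inf_sup_left a b c := teq_top fun _ => inter_union_distrib_left _ _ _
  sup_compl a := teq_top fun _ => union_compl_self _
  inf_compl a := teq_top fun _ => inter_compl_self _

instance : Sml AA.S := inferInstanceAs (Sml Tm)

/-- At almost all `G`, the algebra is a name of `fin (FF G)`. -/
theorem ev_rep : ∀ᶠ G in Gn RR, ∃ ρ : Rep (AA.at' G) (fin (FF G)),
    ∀ t : Tm, (ρ.e t : Set XX) = tv (FF G) t := by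
  filter_upwards [ev_all_Sml (ι := Tm) fun s => ev_all_Sml (ι := Tm) fun t => teq_ev s t] with G hG
  refine ⟨{
    e := fun t => ⟨tv (FF G) t, tv_mem _ t⟩
    surj := fun x => ?_
    eq_iff := fun s t => ?_
    map_sup := fun _ _ => rfl
    map_inf := fun _ _ => rfl
    map_compl := fun _ => rfl
    map_bot := rfl
    map_top := rfl }, fun t => rfl⟩
  · obtain ⟨t, ht⟩ := exists_tv x.2
    exact ⟨t, Subtype.ext ht⟩
  · exact (hG s t).trans ⟨fun h => Subtype.ext h, fun h => congrArg Subtype.val h⟩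

end Pool.Agent.Sc85
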